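import Pool.Agent.H986PD.Defs

set_option autoImplicit false

namespace Pool.Agent.H986PD

/-- the invariant class `a ↦ 0`, `b, d ↦ 1` -/
def yF : F →* Multiplicative ℤ :=
  FreeGroup.lift ![1, Multiplicative.ofAdd 1, Multiplicative.ofAdd 1]

theorem yF_xa : yF xa = 1 := by simp [yF, xa]
theorem yF_xb : yF xb = Multiplicative.ofAdd 1 := by simp [yF, xb]
theorem yF_xd : yF xd = Multiplicative.ofAdd 1 := by simp [yF, xd]

theorem yF_gHom (x : F) : yF (gHom x) = yF x := by
  have h : yF.comp gHom = yF := by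
    apply F_ext
    · rw [MonoidHom.comp_apply, gHom_xa]
      simp only [map_mul, map_inv, yF_xa, yF_xb, yF_xd]
      rfl
    · rw [MonoidHom.comp_apply, gHom_xb]
      simp only [map_mul, map_inv, yF_xa, yF_xb, yF_xd]
      rfl
    · rw [MonoidHom.comp_apply, gHom_xd]
  exact DFunLike.congr_fun h x

theorem yF_gT (x : F) : yF (gT x) = yF x := by
  rw [gT_apply, map_mul, map_mul, map_inv, yF_gHom, mul_comm, mul_inv_cancel_left]

theorem yF_hA (x : F) : yF (hA x) = yF x := by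
  rw [hA_apply, map_mul, map_mul, map_inv, yF_gT, yF_gT, yF_gT, yF_gT, mul_comm,
    inv_mul_cancel_left]

theorem yF_cw : yF cw = Multiplicative.ofAdd 2 := by
  simp only [cw, map_mul, map_inv, yF_xa, yF_xb, yF_xd]
  rfl

/-- homotheties -/
def hom {B : Type*} [CommRing B] (z : Bˣ) : Equiv.Perm B where
  toFun v := z * v
  invFun v := (z⁻¹ : Bˣ) * v
  left_inv v := by simp
  right_inv v := by simp

/-- affine maps -/
def aff {B : Type*} [CommRing B] (u : Bˣ) (c : B) : Equiv.Perm B where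
  toFun v := u * v + c
  invFun v := (u⁻¹ : Bˣ) * (v - c)
  left_inv v := by simp
  right_inv v := by simp

theorem aff_apply {B : Type*} [CommRing B] (u : Bˣ) (c v : B) : aff u c v = u * v + c := rfl

theorem aff_mul {B : Type*} [CommRing B] (u u' : Bˣ) (c c' : B) :
    aff u c * aff u' c' = aff (u * u') (c + u * c') := by
  ext v
  rw [Equiv.Perm.mul_apply, aff_apply, aff_apply, aff_apply]
  push_cast
  ring

theorem hom_eq {B : Type*} [CommRing B] (z : Bˣ) : hom z = aff z 0 := by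
  ext v
  rw [aff_apply, add_zero]
  rfl

theorem aff_congr {B : Type*} [CommRing B] {u u' : Bˣ} {c c' : B} (h : u = u') (h' : c = c') :
    aff u c = aff u' c' := by rw [h, h']

/-- The affine representation of the fibre group attached to a root of the Alexander polynomial. -/
theorem aff_rep {B : Type*} [CommRing B] (Y z : Bˣ)
    (h : (Y : B) * z ^ 2 + 2 * (1 + Y) * z + 1 = 0) :
    ∃ f : F →* Equiv.Perm B,
      (∀ x v, f x v = ((Y ^ (Multiplicative.toAdd (yF x)) : Bˣ) : B) * v + f x 0) ∧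
      (∀ x, hom z * f x * (hom z)⁻¹ = f (gT x)) ∧
      f cw = hom (Y ^ 2) ∧
      f (xb * xd * xb⁻¹ * xd⁻¹) 0 = (Y : B) ^ 3 - Y := by
  obtain ⟨A, hA'⟩ : ∃ A : Equiv.Perm B, A = aff 1 ((1 + (Y : B)) * (z + 1)) := ⟨_, rfl⟩
  obtain ⟨C, hC⟩ : ∃ C : Equiv.Perm B, C = aff Y (-(1 + (Y : B)) * Y + (Y - 1) * (z + 1)) := ⟨_, rfl⟩
  obtain ⟨D, hD⟩ : ∃ D : Equiv.Perm B, D = aff Y (((Y : B) - 1) * (z + 1)) := ⟨_, rfl⟩
  obtain ⟨W, hW⟩ : ∃ W : Equiv.Perm B, W = aff Y (-((z : B) + 1) * (3 + Y) + (1 + Y)) := ⟨_, rfl⟩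
  obtain ⟨Z, hZ⟩ : ∃ Z : Equiv.Perm B, Z = hom z := ⟨_, rfl⟩
  obtain ⟨f, hf⟩ : ∃ f : F →* Equiv.Perm B, f = FreeGroup.lift ![A, C, D] := ⟨_, rfl⟩
  have fa : f xa = A := by rw [hf]; simp [xa]
  have fb : f xb = C := by rw [hf]; simp [xb]
  have fd : f xd = D := by rw [hf]; simp [xd]
  have E0 : C * A * A * W = D * D := by
    rw [hA', hC, hD, hW, aff_mul, aff_mul, aff_mul, aff_mul]
    refine aff_congr (by rw [mul_one, mul_one]) ?_
    push_cast
    ring
  have fW : f uw = W := by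
    simp only [uw, map_mul, map_inv, fa, fb, fd]
    calc A⁻¹ * A⁻¹ * C⁻¹ * D * D = A⁻¹ * A⁻¹ * C⁻¹ * (D * D) := by group
      _ = A⁻¹ * A⁻¹ * C⁻¹ * (C * A * A * W) := by rw [E0]
      _ = W := by group
  have E1 : C * A * Z * A = W * Z := by
    rw [hA', hC, hW, hZ, hom_eq, aff_mul, aff_mul, aff_mul, aff_mul]
    refine aff_congr (by rw [mul_one, mul_one]) ?_
    push_cast
    linear_combination (1 + (Y : B)) * h
  have E2 : W * Z * C = D * D * Z * A := by
    rw [hA', hC, hD, hW, hZ, hom_eq, aff_mul, aff_mul, aff_mul, aff_mul, aff_mul]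
    refine aff_congr (by rw [mul_one, mul_assoc, mul_comm z Y, mul_assoc]) ?_
    push_cast
    linear_combination (-(1 + (Y : B)) * Y + (Y - 1)) * h
  have E3 : W * Z * D = D * W * Z := by
    rw [hD, hW, hZ, hom_eq, aff_mul, aff_mul, aff_mul, aff_mul]
    refine aff_congr (by rw [mul_assoc, mul_comm z Y, mul_assoc]) ?_
    push_cast
    linear_combination ((Y : B) - 1) * h
  refine ⟨f, ?_, ?_, ?_, ?_⟩
  · intro x
    induction x using FreeGroup.induction_on with
    | C1 =>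
      intro v
      rw [map_one, map_one]
      simp
    | of i =>
      intro v
      fin_cases i
      · show f xa v = ((Y ^ (Multiplicative.toAdd (yF xa)) : Bˣ) : B) * v + f xa 0
        rw [fa, yF_xa, hA', aff_apply, aff_apply]
        simp
      · show f xb v = ((Y ^ (Multiplicative.toAdd (yF xb)) : Bˣ) : B) * v + f xb 0
        rw [fb, yF_xb, hC, aff_apply, aff_apply]
        simp
      · show f xd v = ((Y ^ (Multiplicative.toAdd (yF xd)) : Bˣ) : B) * v + f xd 0
        rw [fd, yF_xd, hD, aff_apply, aff_apply]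
        simp
    | inv_of i ih =>
      intro v
      have h1 := ih ((f (FreeGroup.of i))⁻¹ v)
      have h2 := ih ((f (FreeGroup.of i))⁻¹ 0)
      have h3 : f (FreeGroup.of i) ((f (FreeGroup.of i))⁻¹ v) = v :=
        (f (FreeGroup.of i)).apply_symm_apply v
      have h4 : f (FreeGroup.of i) ((f (FreeGroup.of i))⁻¹ 0) = 0 :=
        (f (FreeGroup.of i)).apply_symm_apply 0
      rw [h3] at h1
      rw [h4] at h2
      rw [map_inv, map_inv, toAdd_inv, zpow_neg]
      have h5 : ((((Y ^ (Multiplicative.toAdd (yF (FreeGroup.of i))) : Bˣ))⁻¹ : Bˣ) : B) *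
          ((Y ^ (Multiplicative.toAdd (yF (FreeGroup.of i))) : Bˣ) : B) = 1 := Units.inv_mul _
      obtain ⟨U, hU⟩ : ∃ U : Bˣ, U = Y ^ (Multiplicative.toAdd (yF (FreeGroup.of i))) := ⟨_, rfl⟩
      rw [← hU] at h1 h2 h5 ⊢
      have h6 : v = (U : B) * ((f (FreeGroup.of i))⁻¹ v - (f (FreeGroup.of i))⁻¹ 0) := by
        linear_combination h1 - h2
      calc (f (FreeGroup.of i))⁻¹ v
          = ((U⁻¹ : Bˣ) : B) * (U : B) * ((f (FreeGroup.of i))⁻¹ v - (f (FreeGroup.of i))⁻¹ 0)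
            + (f (FreeGroup.of i))⁻¹ 0 := by rw [h5]; ring
        _ = ((U⁻¹ : Bˣ) : B) * v + (f (FreeGroup.of i))⁻¹ 0 := by
            rw [mul_assoc, ← h6]
    | mul x y hx hy =>
      intro v
      rw [map_mul, map_mul, Equiv.Perm.mul_apply, Equiv.Perm.mul_apply, hx (f y v), hy v,
        hx (f y 0), toAdd_mul, zpow_add]
      push_cast
      ring
  · have key : (MulAut.conj Z).toMonoidHom.comp f = f.comp (MulEquiv.toMonoidHom gT) := by
      apply F_ext
      · show Z * f xa * Z⁻¹ = f (gT xa)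
        rw [gT_apply, map_mul, map_mul, map_inv, fW, gHom_xa, fa]
        have : f (xa⁻¹ * xa⁻¹ * xb⁻¹ * xd * xd * xa⁻¹ * xb⁻¹) = f uw * A⁻¹ * C⁻¹ := by
          simp only [uw, map_mul, map_inv, fa, fb, fd]
        rw [this, fW]
        calc Z * A * Z⁻¹ = A⁻¹ * C⁻¹ * (C * A * Z * A) * Z⁻¹ := by group
          _ = A⁻¹ * C⁻¹ * (W * Z) * Z⁻¹ := by rw [E1]
          _ = W⁻¹ * (W * A⁻¹ * C⁻¹) * W := by group
      · show Z * f xb * Z⁻¹ = f (gT xb)
        rw [gT_apply, map_mul, map_mul, map_inv, fW, gHom_xb, fb]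
        simp only [map_mul, map_inv, fa, fb, fd]
        calc Z * C * Z⁻¹ = W⁻¹ * (W * Z * C) * Z⁻¹ := by group
          _ = W⁻¹ * (D * D * Z * A) * Z⁻¹ := by rw [E2]
          _ = W⁻¹ * (D * D * A⁻¹ * C⁻¹) * (C * A * Z * A) * Z⁻¹ := by group
          _ = W⁻¹ * (D * D * A⁻¹ * C⁻¹) * (W * Z) * Z⁻¹ := by rw [E1]
          _ = W⁻¹ * (D * D * A⁻¹ * C⁻¹) * W := by group
      · show Z * f xd * Z⁻¹ = f (gT xd)
        rw [gT_apply, map_mul, map_mul, map_inv, fW, gHom_xd, fd]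
        calc Z * D * Z⁻¹ = W⁻¹ * (W * Z * D) * Z⁻¹ := by group
          _ = W⁻¹ * (D * W * Z) * Z⁻¹ := by rw [E3]
          _ = W⁻¹ * D * W := by group
    intro x
    rw [← hZ]
    exact DFunLike.congr_fun key x
  · simp only [cw, map_mul, map_inv, fa, fb, fd]
    have h1 : A * C = aff 1 ((1 - (Y : B)) * ((1 + (Y : B)) * (z + 1))) * C * A := by
      rw [hA', hC, aff_mul, aff_mul, aff_mul]
      refine aff_congr (by rw [mul_one, one_mul]) ?_
      push_cast
      ring
    calc A * C * A⁻¹ * C⁻¹ * D * D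
        = (A * C) * A⁻¹ * C⁻¹ * D * D := by group
      _ = (aff 1 ((1 - (Y : B)) * ((1 + (Y : B)) * (z + 1))) * C * A) * A⁻¹ * C⁻¹ * D * D := by
          rw [← h1]
      _ = aff 1 ((1 - (Y : B)) * ((1 + (Y : B)) * (z + 1))) * D * D := by group
      _ = hom (Y ^ 2) := by
          rw [hD, hom_eq, aff_mul, aff_mul]
          refine aff_congr (by rw [one_mul, sq]) ?_
          push_cast
          ring
  · simp only [map_mul, map_inv, fa, fb, fd]
    have h1 : C * D = aff 1 ((Y : B) ^ 3 - Y) * D * C := by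
      rw [hC, hD, aff_mul, aff_mul, aff_mul]
      refine aff_congr (by rw [one_mul]) ?_
      push_cast
      ring
    have h2 : C * D * C⁻¹ * D⁻¹ = aff 1 ((Y : B) ^ 3 - Y) := by
      rw [h1]; group
    rw [h2, aff_apply, mul_zero, zero_add]

end Pool.Agent.H986PD
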