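import Pool.Agent.H986PD.LF

set_option autoImplicit false

namespace Pool.Agent.H986PD

open Pool.Agent.Helper158 Finsupp

/-! To prove: -/

/-- the element `c_i - 1` of `L i` -/
noncomputable def cL (i : Bool) : L i :=
  ⟨gr (cc i) - 1, by simpa [cc] using mul_sub_mem_L i 1 cw⟩

theorem ev_g1 : xa * xb * xa⁻¹ * xb⁻¹ * (xb * xa * xb⁻¹ * xa⁻¹ * xb⁻¹ * xb) = 1 := by
  group

theorem ev_g2 : xa * xb * xa⁻¹ * xb⁻¹ * xb = xa * xb * xa⁻¹ := by
  group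

theorem ev_g3 : xa * xb * xa⁻¹ * xb⁻¹ * (xb * xa * xb⁻¹) = xa := by
  group

/-- the boundary formula: with `A, B, D` the three generators of the fibre `i` in `R`,
`ψ (c - 1) = [a,b] ((v - 1) (b ψ(a-1)) + (u - 1) ψ(b-1) + (d + 1) ψ(d-1))`,
`v = b a b⁻¹ a⁻¹ b⁻¹`, `u = b a b⁻¹`. -/
theorem ev_formula (i : Bool) (ψ : L i →ₗ[R] R) :
    ψ (cL i) = gr (fin i (xa * xb * xa⁻¹ * xb⁻¹)) *
      ((gr (fin i (xb * xa * xb⁻¹ * xa⁻¹ * xb⁻¹)) - 1) *
          (gr (fin i xb) * ψ ⟨lv i 0, by simpa [lv] using mul_sub_mem_L i 1 (FreeGroup.of 0)⟩)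
        + (gr (fin i (xb * xa * xb⁻¹)) - 1) *
          ψ ⟨lv i 1, by simpa [lv] using mul_sub_mem_L i 1 (FreeGroup.of 1)⟩
        + (gr (fin i xd) + 1) *
          ψ ⟨lv i 2, by simpa [lv] using mul_sub_mem_L i 1 (FreeGroup.of 2)⟩) := by
  obtain ⟨γ, hγ⟩ : ∃ γ : F →* R, ∀ x, gr (fin i x) = γ x := ⟨gr.comp (fin i), fun _ => rfl⟩
  have f0 : γ (xa * xb * xa⁻¹ * xb⁻¹) *
      ((γ (xb * xa * xb⁻¹ * xa⁻¹ * xb⁻¹) - 1) * γ xb) = 1 - γ (xa * xb * xa⁻¹) := by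
    rw [sub_mul, one_mul, mul_sub, ← map_mul, ← map_mul, ← map_mul, ev_g1, ev_g2, map_one]
  have f1 : γ (xa * xb * xa⁻¹ * xb⁻¹) * (γ (xb * xa * xb⁻¹) - 1) =
      γ xa - γ (xa * xb * xa⁻¹ * xb⁻¹) := by
    rw [mul_sub, mul_one, ← map_mul, ev_g3]
  have hc : cL i = (γ (xa * xb * xa⁻¹ * xb⁻¹) *
      ((γ (xb * xa * xb⁻¹ * xa⁻¹ * xb⁻¹) - 1) * γ xb)) •
        (⟨lv i 0, by simpa [lv] using mul_sub_mem_L i 1 (FreeGroup.of 0)⟩ : L i) +
      (γ (xa * xb * xa⁻¹ * xb⁻¹) * (γ (xb * xa * xb⁻¹) - 1)) •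
        (⟨lv i 1, by simpa [lv] using mul_sub_mem_L i 1 (FreeGroup.of 1)⟩ : L i) +
      (γ (xa * xb * xa⁻¹ * xb⁻¹) * (γ xd + 1)) •
        (⟨lv i 2, by simpa [lv] using mul_sub_mem_L i 1 (FreeGroup.of 2)⟩ : L i) := by
    apply Subtype.ext
    rw [f0, f1]
    show gr (cc i) - 1 = (1 - γ (xa * xb * xa⁻¹)) * (gr (fin i xa) - 1) +
      (γ xa - γ (xa * xb * xa⁻¹ * xb⁻¹)) * (gr (fin i xb) - 1) +
      (γ (xa * xb * xa⁻¹ * xb⁻¹) * (γ xd + 1)) * (gr (fin i xd) - 1)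
    have h1 : gr (cc i) = γ (xa * xb * xa⁻¹ * xb⁻¹) * γ xd * γ xd := by
      rw [cc, hγ, cw, map_mul, map_mul]
    have h2 : γ (xa * xb * xa⁻¹) * γ xa = γ xa * γ xb := by
      rw [← map_mul, ← map_mul]
      congr 1
      group
    have h3 : γ (xa * xb * xa⁻¹ * xb⁻¹) * γ xb = γ (xa * xb * xa⁻¹) := by
      rw [← map_mul, ev_g2]
    rw [h1, hγ, hγ, hγ]
    simp only [sub_mul, mul_sub, add_mul, mul_add, one_mul, mul_one, h2, h3]
    abel
  rw [hc, map_add, map_add, map_smul, map_smul, map_smul, smul_eq_mul, smul_eq_mul,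
    smul_eq_mul]
  simp only [hγ]
  generalize γ (xa * xb * xa⁻¹ * xb⁻¹) = κ
  generalize γ (xb * xa * xb⁻¹ * xa⁻¹ * xb⁻¹) - 1 = P
  generalize γ (xb * xa * xb⁻¹) - 1 = Q
  generalize γ xd + 1 = D
  simp only [mul_add, mul_assoc]

theorem ev_eW (i : Bool) (y z t : R) :
    eW ((gr (fin i (xb * xa * xb⁻¹ * xa⁻¹ * xb⁻¹)) - 1) * y +
      (gr (fin i (xb * xa * xb⁻¹)) - 1) * z + (gr (fin i xd) + 1) * t) =
    (ρ (fin i (xb * xa * xb⁻¹ * xa⁻¹ * xb⁻¹)) (eW y) - eW y) +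
      (ρ (fin i (xb * xa * xb⁻¹)) (eW z) - eW z) +
      (ρ (fin i xd) (-eW t) - (-eW t)) := by
  have h1 : wG (fin i (xb * xa * xb⁻¹ * xa⁻¹ * xb⁻¹)) = 1 := by
    rw [wG_fin]
    simp
  have h2 : wG (fin i (xb * xa * xb⁻¹)) = 1 := by
    rw [wG_fin]
    simp
  have h3 : wG (fin i xd) = -1 := by
    rw [wG_fin]
    simp
  rw [map_add, map_add, sub_mul, sub_mul, add_mul, one_mul, one_mul, one_mul, map_sub, map_sub,
    map_add, eW_mul_one h1, eW_mul_one h2, eW_mul_neg h3, map_neg]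
  abel

/-- substitution -/
def evα : F →* F := FreeGroup.lift ![xb * xa * xb⁻¹ * xa⁻¹ * xb⁻¹, xb * xa * xb⁻¹, xd]

/-- its inverse -/
def evβ : F →* F := FreeGroup.lift ![xb⁻¹ * xa * xb * xa⁻¹ * xb, xb⁻¹ * xa⁻¹ * xb, xd]

theorem evα_xa : evα xa = xb * xa * xb⁻¹ * xa⁻¹ * xb⁻¹ := by
  simp [evα, xa]

theorem evα_xb : evα xb = xb * xa * xb⁻¹ := by
  simp [evα, xb]

theorem evα_xd : evα xd = xd := by
  simp [evα, xd]

theorem evβ_xa : evβ xa = xb⁻¹ * xa * xb * xa⁻¹ * xb := by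
  simp [evβ, xa]

theorem evβ_xb : evβ xb = xb⁻¹ * xa⁻¹ * xb := by
  simp [evβ, xb]

theorem evβ_xd : evβ xd = xd := by
  simp [evβ, xd]

theorem ev_βα : evβ.comp evα = MonoidHom.id F := by
  apply F_ext
  · simp only [MonoidHom.comp_apply, MonoidHom.id_apply, evα_xa, map_mul, map_inv, evβ_xa,
      evβ_xb]
    group
  · simp only [MonoidHom.comp_apply, MonoidHom.id_apply, evα_xb, map_mul, map_inv, evβ_xa,
      evβ_xb]
    group
  · simp only [MonoidHom.comp_apply, MonoidHom.id_apply, evα_xd, evβ_xd]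

theorem ev_αβ : evα.comp evβ = MonoidHom.id F := by
  apply F_ext
  · simp only [MonoidHom.comp_apply, MonoidHom.id_apply, evβ_xa, map_mul, map_inv, evα_xa,
      evα_xb]
    group
  · simp only [MonoidHom.comp_apply, MonoidHom.id_apply, evβ_xb, map_mul, map_inv, evα_xa,
      evα_xb]
    group
  · simp only [MonoidHom.comp_apply, MonoidHom.id_apply, evα_xd, evβ_xd]

theorem evα_inj : Function.Injective evα := by
  intro x y h
  have h1 := DFunLike.congr_fun ev_βα x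
  have h2 := DFunLike.congr_fun ev_βα y
  rw [MonoidHom.comp_apply, MonoidHom.id_apply] at h1 h2
  rw [← h1, ← h2, h]

theorem evα_surj : Function.Surjective evα := fun x =>
  ⟨evβ x, DFunLike.congr_fun ev_αβ x⟩

theorem ev_closure : Subgroup.closure (Set.range fun k : Fin 3 => evα (FreeGroup.of k)) = ⊤ := by
  have h1 : (Set.range fun k : Fin 3 => evα (FreeGroup.of k)) =
      evα '' (Set.range fun k : Fin 3 => (FreeGroup.of k : F)) := by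
    rw [← Set.range_comp]
    rfl
  rw [h1, ← MonoidHom.map_closure, FreeGroup.closure_range_of, ← MonoidHom.range_eq_map,
    MonoidHom.range_eq_top]
  exact evα_surj

theorem ev_inj (i : Bool) {ψ ψ' : L i →ₗ[R] R} (h : ψ (cL i) = ψ' (cL i)) : ψ = ψ' := by
  have hf := ev_formula i (ψ - ψ')
  rw [LinearMap.sub_apply, h, sub_self] at hf
  obtain ⟨m0, hm0⟩ : ∃ m, m = (ψ - ψ')
      ⟨lv i 0, by simpa [lv] using mul_sub_mem_L i 1 (FreeGroup.of 0)⟩ := ⟨_, rfl⟩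
  obtain ⟨m1, hm1⟩ : ∃ m, m = (ψ - ψ')
      ⟨lv i 1, by simpa [lv] using mul_sub_mem_L i 1 (FreeGroup.of 1)⟩ := ⟨_, rfl⟩
  obtain ⟨m2, hm2⟩ : ∃ m, m = (ψ - ψ')
      ⟨lv i 2, by simpa [lv] using mul_sub_mem_L i 1 (FreeGroup.of 2)⟩ := ⟨_, rfl⟩
  rw [← hm0, ← hm1, ← hm2] at hf
  have h1 : (gr (fin i (xb * xa * xb⁻¹ * xa⁻¹ * xb⁻¹)) - 1) * (gr (fin i xb) * m0) +
      (gr (fin i (xb * xa * xb⁻¹)) - 1) * m1 + (gr (fin i xd) + 1) * m2 = 0 := by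
    have h2 := congrArg (fun z => gr (fin i (xa * xb * xa⁻¹ * xb⁻¹)⁻¹) * z) hf
    simp only [mul_zero] at h2
    rw [← mul_assoc, ← map_mul, ← map_mul, inv_mul_cancel, map_one, map_one, one_mul] at h2
    exact h2.symm
  have h3 := ev_eW i (gr (fin i xb) * m0) m1 m2
  rw [h1, map_zero] at h3
  have h4 := fox_indep i evα evα_inj ![eW (gr (fin i xb) * m0), eW m1, -eW m2] (by
    rw [Fin.sum_univ_three]
    have a0 : evα (FreeGroup.of 0) = xb * xa * xb⁻¹ * xa⁻¹ * xb⁻¹ := evα_xa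
    have a1 : evα (FreeGroup.of 1) = xb * xa * xb⁻¹ := evα_xb
    have a2 : evα (FreeGroup.of 2) = xd := evα_xd
    rw [a0, a1, a2]
    exact h3.symm)
  have k0 : eW (gr (fin i xb) * m0) = 0 := congrFun h4 0
  have k1 : eW m1 = 0 := congrFun h4 1
  have k2 : -eW m2 = 0 := congrFun h4 2
  have l0 : m0 = 0 := by
    have h5 : gr (fin i xb) * m0 = 0 := eW.map_eq_zero_iff.1 k0
    have h6 := congrArg (fun z => gr (fin i xb⁻¹) * z) h5
    simp only [mul_zero] at h6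
    rwa [← mul_assoc, ← map_mul, ← map_mul, inv_mul_cancel, map_one, map_one, one_mul] at h6
  have l1 : m1 = 0 := eW.map_eq_zero_iff.1 k1
  have l2 : m2 = 0 := eW.map_eq_zero_iff.1 (neg_eq_zero.1 k2)
  refine L_ext i fun k => ?_
  fin_cases k
  · exact sub_eq_zero.1 (hm0.symm.trans l0)
  · exact sub_eq_zero.1 (hm1.symm.trans l1)
  · exact sub_eq_zero.1 (hm2.symm.trans l2)

theorem ev_mem (i : Bool) (ψ : L i →ₗ[R] R) : ψ (cL i) ∈ J i := by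
  rw [ev_formula i ψ]
  refine mul_mem_J i _ ?_
  refine AddSubgroup.add_mem _ (AddSubgroup.add_mem _ (sub_mem_J i ?_ _) (sub_mem_J i ?_ _))
    (add_mem_J i ?_ _)
  · simp
  · simp
  · simp

theorem ev_surj (i : Bool) {j : R} (hj : j ∈ J i) : ∃ ψ : L i →ₗ[R] R, ψ (cL i) = j := by
  have hj' : gr (fin i (xa * xb * xa⁻¹ * xb⁻¹)⁻¹) * j ∈ J i := mul_mem_J i _ hj
  rw [mem_J] at hj'
  obtain ⟨I, hI⟩ : ∃ I : AddSubgroup M, ∀ m, m ∈ I ↔ ∃ x : Fin 3 → M,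
      m = ∑ k, (ρ (fin i (evα (FreeGroup.of k))) (x k) - x k) := by
    refine ⟨{ carrier := {m | ∃ x : Fin 3 → M,
                m = ∑ k, (ρ (fin i (evα (FreeGroup.of k))) (x k) - x k)}
              zero_mem' := ⟨0, by simp⟩
              add_mem' := ?_
              neg_mem' := ?_ }, fun m => Iff.rfl⟩
    · rintro _ _ ⟨x, rfl⟩ ⟨y, rfl⟩
      refine ⟨x + y, ?_⟩
      rw [← Finset.sum_add_distrib]
      refine Finset.sum_congr rfl fun k _ => ?_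
      rw [Pi.add_apply, map_add]
      abel
    · rintro _ ⟨x, rfl⟩
      refine ⟨-x, ?_⟩
      rw [← Finset.sum_neg_distrib]
      refine Finset.sum_congr rfl fun k _ => ?_
      rw [Pi.neg_apply, map_neg]
      abel
  have hm := IM_gen i (Set.range fun k : Fin 3 => evα (FreeGroup.of k)) ev_closure I (by
    rintro _ ⟨k, rfl⟩ m
    rw [hI]
    refine ⟨Pi.single k m, ?_⟩
    rw [Finset.sum_eq_single k]
    · rw [Pi.single_eq_same]
    · intro b _ hb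
      rw [Pi.single_eq_of_ne hb, map_zero, sub_zero]
    · intro h
      exact absurd (Finset.mem_univ k) h) hj'
  rw [hI] at hm
  obtain ⟨x, hx⟩ := hm
  obtain ⟨ψ, hψ⟩ := L_lift i ![gr (fin i xb⁻¹) * eW.symm (x 0), eW.symm (x 1), -eW.symm (x 2)]
  refine ⟨ψ, ?_⟩
  have p0 : ψ ⟨lv i 0, by simpa [lv] using mul_sub_mem_L i 1 (FreeGroup.of 0)⟩ =
    gr (fin i xb⁻¹) * eW.symm (x 0) := hψ 0
  have p1 : ψ ⟨lv i 1, by simpa [lv] using mul_sub_mem_L i 1 (FreeGroup.of 1)⟩ =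
    eW.symm (x 1) := hψ 1
  have p2 : ψ ⟨lv i 2, by simpa [lv] using mul_sub_mem_L i 1 (FreeGroup.of 2)⟩ =
    -eW.symm (x 2) := hψ 2
  rw [ev_formula i ψ, p0, p1, p2]
  have q0 : gr (fin i xb) * (gr (fin i xb⁻¹) * eW.symm (x 0)) = eW.symm (x 0) := by
    rw [← mul_assoc, ← map_mul, ← map_mul, mul_inv_cancel, map_one, map_one, one_mul]
  rw [q0]
  have q1 : (gr (fin i (xb * xa * xb⁻¹ * xa⁻¹ * xb⁻¹)) - 1) * eW.symm (x 0) +
      (gr (fin i (xb * xa * xb⁻¹)) - 1) * eW.symm (x 1) +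
      (gr (fin i xd) + 1) * -eW.symm (x 2) =
      gr (fin i (xa * xb * xa⁻¹ * xb⁻¹)⁻¹) * j := by
    apply eW.injective
    have hneg : eW (-(eW.symm (x 2))) = -x 2 := by
      rw [map_neg, AddEquiv.apply_symm_apply]
    rw [ev_eW, hx, Fin.sum_univ_three, hneg, neg_neg, AddEquiv.apply_symm_apply,
      AddEquiv.apply_symm_apply]
    have a0 : evα (FreeGroup.of 0) = xb * xa * xb⁻¹ * xa⁻¹ * xb⁻¹ := evα_xa
    have a1 : evα (FreeGroup.of 1) = xb * xa * xb⁻¹ := evα_xb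
    have a2 : evα (FreeGroup.of 2) = xd := evα_xd
    rw [a0, a1, a2]
  rw [q1, ← mul_assoc, ← map_mul, ← map_mul, mul_inv_cancel, map_one, map_one, one_mul]

end Pool.Agent.H986PD
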