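import Pool.Agent.H986PD.Exl
import Pool.Agent.H986PD.Ev

/-! The self-dual resolution `0 → R → L ⊕ L' → L ⊕ L' → R → ℤ → 0` and the cohomology. -/

namespace Pool.Agent.H986PD

open Pool.Agent.Helper158 CategoryTheory

/-- the middle modules -/
abbrev LL : Type := L true × L false

/-- right multiplication -/
noncomputable abbrev mR (a : R) : R →ₗ[R] R := LinearMap.toSpanSingleton R R a

theorem mR_apply (a x : R) : mR a x = x * a := rfl

noncomputable def d1 : LL →ₗ[R] R := (L true).subtype.coprod (-(L false).subtype)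

theorem d1_apply (p : LL) : d1 p = (p.1 : R) - (p.2 : R) := by
  simp [d1, sub_eq_add_neg]

/-- the common value of `d2` -/
noncomputable def sg : LL →ₗ[R] R :=
  ((mR (gr (cc false) - 1)).comp (L true).subtype).coprod
    ((mR (gr (cc true) - 1)).comp (L false).subtype)

theorem sg_apply (p : LL) :
    sg p = (p.1 : R) * (gr (cc false) - 1) + (p.2 : R) * (gr (cc true) - 1) := by
  simp [sg]

theorem mul_ccs_mem_L (i : Bool) {x : R} (hx : x ∈ L i) (j : Bool) :
    x * (gr (cc j) - 1) ∈ L i := by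
  by_cases h : j = i
  · subst h
    exact mul_sub_mem_L j x cw
  · have hj : j = !i := by
      cases i <;> cases j
      · exact absurd rfl h
      · rfl
      · rfl
      · exact absurd rfl h
    subst hj
    rw [mul_sub, mul_one]
    exact (L i).sub_mem (mul_cc_mem_L i hx) hx

theorem mul_cc_mem_L' (i : Bool) (x : R) : x * (gr (cc i) - 1) ∈ L i := mul_sub_mem_L i x cw

theorem sg_mem (i : Bool) (p : LL) : sg p ∈ L i := by
  rw [sg_apply]
  cases i
  · exact (L false).add_mem (mul_cc_mem_L' false _) (mul_ccs_mem_L false p.2.2 true)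
  · exact (L true).add_mem (mul_ccs_mem_L true p.1.2 false) (mul_cc_mem_L' true _)

noncomputable def d2 : LL →ₗ[R] LL :=
  (sg.codRestrict (L true) (sg_mem true)).prod (sg.codRestrict (L false) (sg_mem false))

theorem d2_fst (p : LL) : ((d2 p).1 : R) = sg p := rfl
theorem d2_snd (p : LL) : ((d2 p).2 : R) = sg p := rfl

noncomputable def d3 : R →ₗ[R] LL :=
  ((mR (gr (cc true) - 1)).codRestrict (L true) (fun x => mul_cc_mem_L' true x)).prod
    (-(mR (gr (cc false) - 1)).codRestrict (L false) (fun x => mul_cc_mem_L' false x))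

theorem d3_fst (x : R) : ((d3 x).1 : R) = x * (gr (cc true) - 1) := rfl
theorem d3_snd (x : R) : ((d3 x).2 : R) = -(x * (gr (cc false) - 1)) := rfl

theorem gr_cc_comm (i j : Bool) (x : R) :
    x * (gr (cc i) - 1) * (gr (cc j) - 1) = x * (gr (cc j) - 1) * (gr (cc i) - 1) := by
  have h : gr (cc i) * gr (cc j) = gr (cc j) * gr (cc i) := by
    rw [← map_mul, ← map_mul, (cc_comm i j).eq]
  rw [mul_assoc, mul_assoc]
  congr 1
  simp only [sub_mul, mul_sub, mul_one, one_mul, h]
  abel

/-- the modules of the resolution -/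
def PT : ℕ → Type
  | 0 => R
  | 1 => LL
  | 2 => LL
  | 3 => R
  | _ => PUnit

noncomputable instance PT.acg : ∀ i, AddCommGroup (PT i)
  | 0 => inferInstanceAs (AddCommGroup R)
  | 1 => inferInstanceAs (AddCommGroup LL)
  | 2 => inferInstanceAs (AddCommGroup LL)
  | 3 => inferInstanceAs (AddCommGroup R)
  | (_ + 4) => inferInstanceAs (AddCommGroup PUnit)

noncomputable instance PT.mod : ∀ i, Module R (PT i)
  | 0 => inferInstanceAs (Module R R)
  | 1 => inferInstanceAs (Module R LL)
  | 2 => inferInstanceAs (Module R LL)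
  | 3 => inferInstanceAs (Module R R)
  | (_ + 4) => inferInstanceAs (Module R PUnit)

instance PT.fin : ∀ i, Module.Finite R (PT i)
  | 0 => inferInstanceAs (Module.Finite R R)
  | 1 => inferInstanceAs (Module.Finite R LL)
  | 2 => inferInstanceAs (Module.Finite R LL)
  | 3 => inferInstanceAs (Module.Finite R R)
  | (_ + 4) => inferInstanceAs (Module.Finite R PUnit)

instance PT.proj : ∀ i, Module.Projective R (PT i)
  | 0 => inferInstanceAs (Module.Projective R R)
  | 1 => inferInstanceAs (Module.Projective R LL)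
  | 2 => inferInstanceAs (Module.Projective R LL)
  | 3 => inferInstanceAs (Module.Projective R R)
  | (_ + 4) => inferInstanceAs (Module.Projective R PUnit)

/-- the differentials of the resolution -/
noncomputable def dT : ∀ i, PT (i + 1) →ₗ[R] PT i
  | 0 => d1
  | 1 => d2
  | 2 => d3
  | (_ + 3) => 0

/-- the augmentation of the resolution -/
noncomputable def εR : R →+ ℤ := (aug : R →+* ℤ)

/-- the augmentation of the resolution -/
noncomputable def εT : PT 0 →+ ℤ := εR

theorem aug_mul_gr (g : GG) (x : R) : aug (gr g * x) = aug x := by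
  rw [map_mul, aug_gr, one_mul]

theorem ex1 (p : LL) : d1 p = 0 ↔ ∃ q, d2 q = p := by
  constructor
  · intro h
    rw [d1_apply, sub_eq_zero] at h
    obtain ⟨q, hq, q', hq', e⟩ := tree_R (x := (p.1 : R)) (by
      intro i
      cases i
      · rw [h]; exact p.2.2
      · exact p.1.2)
    refine ⟨(⟨q, hq⟩, ⟨q', hq'⟩), ?_⟩
    have e2 : sg (⟨q, hq⟩, ⟨q', hq'⟩) = (p.1 : R) := by
      rw [sg_apply]; exact e.symm
    apply Prod.ext
    · apply Subtype.ext
      rw [d2_fst, e2]
    · apply Subtype.ext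
      rw [d2_snd, e2, h]
  · rintro ⟨q, rfl⟩
    rw [d1_apply, d2_fst, d2_snd, sub_self]

theorem ex2 (p : LL) : d2 p = 0 ↔ ∃ q, d3 q = p := by
  constructor
  · intro h
    have h1 : sg p = 0 := by
      rw [← d2_fst, h]; rfl
    rw [sg_apply] at h1
    obtain ⟨r, h2, h3⟩ := kos_R h1
    refine ⟨r, ?_⟩
    apply Prod.ext
    · apply Subtype.ext
      rw [d3_fst, h2]
    · apply Subtype.ext
      rw [d3_snd, h3]
  · rintro ⟨q, rfl⟩
    have h1 : sg (d3 q) = 0 := by
      rw [sg_apply, d3_fst, d3_snd, neg_mul, gr_cc_comm true false, add_neg_cancel]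
    apply Prod.ext
    · apply Subtype.ext
      rw [d2_fst, h1]; rfl
    · apply Subtype.ext
      rw [d2_snd, h1]; rfl

theorem ex3 (x : R) (h : d3 x = 0) : x = 0 := by
  have h1 : x * (gr (cc true) - 1) = 0 := by
    rw [← d3_fst, h]; rfl
  exact cc_sub_inj_R true h1

theorem ex0 (x : R) : aug x = 0 ↔ ∃ p, d1 p = x := by
  rw [aug_R]
  constructor
  · rintro ⟨q, hq, q', hq', rfl⟩
    exact ⟨(⟨q, hq⟩, ⟨q', hq'⟩), by rw [d1_apply]⟩
  · rintro ⟨p, rfl⟩
    exact ⟨p.1, p.1.2, p.2, p.2.2, by rw [d1_apply]⟩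

theorem reso_T : Reso PT dT εT where
  surj n := ⟨(n : R), by
    change aug (n : R) = n
    simp⟩
  equi g x := aug_mul_gr g x
  ex0 x := by
    constructor
    · intro h
      obtain ⟨u, hu⟩ := (ex0 x).1 h
      exact ⟨u, hu⟩
    · rintro ⟨y, rfl⟩
      exact (ex0 _).2 ⟨y, rfl⟩
  ex i x := by
    match i, x with
    | 0, x =>
      constructor
      · intro h
        obtain ⟨u, hu⟩ := (ex1 x).1 h
        exact ⟨u, hu⟩
      · rintro ⟨y, rfl⟩
        exact (ex1 _).2 ⟨y, rfl⟩
    | 1, x =>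
      constructor
      · intro h
        obtain ⟨u, hu⟩ := (ex2 x).1 h
        exact ⟨u, hu⟩
      · rintro ⟨y, rfl⟩
        exact (ex2 _).2 ⟨y, rfl⟩
    | 2, x =>
      constructor
      · intro h
        exact ⟨0, (ex3 x h).symm⟩
      · rintro ⟨y, rfl⟩
        exact map_zero _
    | (i + 3), x =>
      constructor
      · intro h
        exact ⟨0, Subsingleton.elim (α := PUnit) _ _⟩
      · intro h
        rfl

/-! ### Cohomology -/

theorem cL_val (i : Bool) : ((cL i : L i) : R) = gr (cc i) - 1 := rfl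

/-- evaluate a linear map at a multiple of `c - 1` -/
theorem ev_smul (i : Bool) (ψ : L i →ₗ[R] R) (r : R) (h : r * (gr (cc i) - 1) ∈ L i) :
    ψ ⟨r * (gr (cc i) - 1), h⟩ = r * ψ (cL i) := by
  have : (⟨r * (gr (cc i) - 1), h⟩ : L i) = r • cL i := by
    apply Subtype.ext
    rfl
  rw [this, map_smul, smul_eq_mul]

theorem LL_ext {f g : LL →ₗ[R] R} (h1 : f (cL true, 0) = g (cL true, 0))
    (h2 : f (0, cL false) = g (0, cL false)) : f = g := by
  apply LinearMap.prod_ext
  · apply ev_inj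
    exact h1
  · apply ev_inj
    exact h2

theorem sg_inl : sg (cL true, 0) = (gr (cc true) - 1) * (gr (cc false) - 1) := by
  rw [sg_apply]
  simp [cL_val]

theorem sg_inr : sg (0, cL false) = (gr (cc false) - 1) * (gr (cc true) - 1) := by
  rw [sg_apply]
  simp [cL_val]

theorem cc_comm1 : (gr (cc true) - 1) * (gr (cc false) - 1)
    = (gr (cc false) - 1) * (gr (cc true) - 1) := by
  have := gr_cc_comm true false 1
  simpa using this

/-- value of a cochain on `d2` -/
theorem comp_d2_aux (ψ : L true →ₗ[R] R) (ψ' : L false →ₗ[R] R) (p : LL)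
    (hp : sg p = (gr (cc true) - 1) * (gr (cc false) - 1)) :
    (ψ.coprod ψ') (d2 p) = (gr (cc false) - 1) * ψ (cL true)
      + (gr (cc true) - 1) * ψ' (cL false) := by
  rw [LinearMap.coprod_apply]
  have h1 : (d2 p).1 = (gr (cc false) - 1) • cL true := by
    apply Subtype.ext
    rw [d2_fst, hp, cc_comm1]; rfl
  have h2 : (d2 p).2 = (gr (cc true) - 1) • cL false := by
    apply Subtype.ext
    rw [d2_snd, hp]; rfl
  rw [h1, h2, map_smul, map_smul, smul_eq_mul, smul_eq_mul]

theorem coprod_eq (f : LL →ₗ[R] R) :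
    f = (f.comp (LinearMap.inl R (L true) (L false))).coprod
      (f.comp (LinearMap.inr R (L true) (L false))) := by
  rw [← LinearMap.comp_coprod]; simp

theorem coh0 (f : R →ₗ[R] R) (h : f ∘ₗ d1 = 0) : f = 0 := by
  have h1 := LinearMap.congr_fun h (cL true, 0)
  rw [LinearMap.comp_apply, d1_apply] at h1
  have h2 : f (gr (cc true) - 1) = 0 := by
    simpa [cL_val] using h1
  have h3 : (gr (cc true) - 1) * f 1 = 0 := by
    rw [← smul_eq_mul, ← map_smul, smul_eq_mul, mul_one, h2]
  have h4 := cc_sub_inj_L true h3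
  apply LinearMap.ext_ring
  rw [h4]; rfl

theorem coh1 (f : LL →ₗ[R] R) (h : f ∘ₗ d2 = 0) : ∃ g : R →ₗ[R] R, g ∘ₗ d1 = f := by
  have h1 := LinearMap.congr_fun h (cL true, 0)
  rw [LinearMap.comp_apply, coprod_eq f, comp_d2_aux _ _ _ sg_inl] at h1
  obtain ⟨r, h2, h3⟩ := kos_L (by simpa using h1)
  refine ⟨mR r, ?_⟩
  apply LL_ext
  · rw [LinearMap.comp_apply, d1_apply, mR_apply]
    simp only [cL_val, ZeroMemClass.coe_zero, sub_zero]
    exact h2.symm
  · rw [LinearMap.comp_apply, d1_apply, mR_apply]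
    simp only [cL_val, ZeroMemClass.coe_zero, zero_sub, neg_mul]
    exact h3.symm

theorem comp_d3 (ψ : L true →ₗ[R] R) (ψ' : L false →ₗ[R] R) :
    (ψ.coprod ψ') (d3 1) = ψ (cL true) - ψ' (cL false) := by
  rw [LinearMap.coprod_apply]
  have h1 : (d3 1).1 = cL true := by
    apply Subtype.ext
    rw [d3_fst, one_mul]; rfl
  have h2 : (d3 1).2 = -cL false := by
    apply Subtype.ext
    rw [d3_snd, one_mul]; rfl
  rw [h1, h2, map_neg, sub_eq_add_neg]

theorem coh2 (f : LL →ₗ[R] R) (h : f ∘ₗ d3 = 0) : ∃ g : LL →ₗ[R] R, g ∘ₗ d2 = f := by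
  have h1 := LinearMap.congr_fun h 1
  rw [LinearMap.comp_apply, coprod_eq f, comp_d3] at h1
  have h2 : f (cL true, 0) = f (0, cL false) := by
    have : f (cL true, 0) - f (0, cL false) = 0 := h1
    exact sub_eq_zero.1 this
  obtain ⟨q, hq, q', hq', e⟩ := tree_L (x := f (cL true, 0)) (by
    intro i
    cases i
    · rw [h2]; exact ev_mem false (f.comp (LinearMap.inr R (L true) (L false)))
    · exact ev_mem true (f.comp (LinearMap.inl R (L true) (L false))))
  obtain ⟨ψ, hψ⟩ := ev_surj true hq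
  obtain ⟨ψ', hψ'⟩ := ev_surj false hq'
  refine ⟨ψ.coprod ψ', ?_⟩
  apply LL_ext
  · rw [LinearMap.comp_apply, comp_d2_aux _ _ _ sg_inl, hψ, hψ', e]
  · rw [LinearMap.comp_apply, comp_d2_aux _ _ _ (by rw [sg_inr, cc_comm1]), hψ, hψ', ← h2, e]

theorem coh3 (f : R →ₗ[R] R) : (∃ g : LL →ₗ[R] R, g ∘ₗ d3 = f) ↔ augW (f 1) = 0 := by
  rw [aug_L]
  constructor
  · rintro ⟨g, rfl⟩
    rw [LinearMap.comp_apply, coprod_eq g, comp_d3]
    exact ⟨_, ev_mem true _, _, ev_mem false _, rfl⟩
  · rintro ⟨q, hq, q', hq', e⟩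
    obtain ⟨ψ, hψ⟩ := ev_surj true hq
    obtain ⟨ψ', hψ'⟩ := ev_surj false hq'
    refine ⟨ψ.coprod ψ', ?_⟩
    apply LinearMap.ext_ring
    rw [LinearMap.comp_apply, comp_d3, hψ, hψ', e]

theorem cob_zero (n : ℕ) : IsCob dT n 0 := by
  cases n with
  | zero => rfl
  | succ n => exact ⟨0, LinearMap.zero_comp _⟩

theorem cocyc_cob (n : ℕ) (hn : n ≠ 3) (f : PT n →ₗ[R] R) (hf : f ∈ cocyc dT n) :
    IsCob dT n f := by
  rw [mem_cocyc] at hf
  match n, f with
  | 0, f => exact coh0 f hf
  | 1, f => exact coh1 f hf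
  | 2, f => exact coh2 f hf
  | 3, f => exact absurd rfl hn
  | (n + 4), f =>
    have : f = 0 := by
      refine LinearMap.ext fun x => ?_
      have hx : x = 0 := Subsingleton.elim (α := PUnit) _ _
      rw [hx, map_zero, map_zero]
    rw [this]
    exact cob_zero _

theorem coh_vanish (n : ℕ) (hn : n ≠ 3) :
    Subsingleton (groupCohomology (Rep.leftRegular ℤ GG) n) := by
  obtain ⟨π, h1, h2⟩ := reso_T.coh n
  refine subsingleton_of_forall_eq 0 fun y => ?_
  obtain ⟨x, rfl⟩ := h1 y
  rw [h2]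
  exact cocyc_cob n hn x.1 x.2

/-- Two surjective homomorphisms with the same kernel have isomorphic targets. -/
theorem equiv_of_ker {A B C : Type*} [AddCommGroup A] [AddCommGroup B] [AddCommGroup C]
    (f : A →+ B) (g : A →+ C) (hf : Function.Surjective f) (hg : Function.Surjective g)
    (h : ∀ x, f x = 0 ↔ g x = 0) : Nonempty (B ≃+ C) := by
  have hk : f.ker = g.ker := by
    ext x
    exact h x
  exact ⟨(QuotientAddGroup.quotientKerEquivOfSurjective f hf).symm.trans
    ((QuotientAddGroup.quotientAddEquivOfEq hk).trans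
      (QuotientAddGroup.quotientKerEquivOfSurjective g hg))⟩

/-- evaluation of a top cochain -/
noncomputable def evT0 : (R →ₗ[R] R) →+ ℤ :=
  AddMonoidHom.mk' (fun f => augW (f 1)) (by
    intro f g
    rw [LinearMap.add_apply, map_add])

/-- evaluation of a top cochain -/
noncomputable def evT : (PT 3 →ₗ[R] R) →+ ℤ := evT0

theorem coh_three : Nonempty (groupCohomology (Rep.leftRegular ℤ GG) 3 ≃+ ℤ) := by
  obtain ⟨π, h1, h2⟩ := reso_T.coh 3
  refine equiv_of_ker π (evT.comp (cocyc dT 3).subtype) h1 ?_ ?_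
  · intro n
    refine ⟨⟨(mR (n : R) : R →ₗ[R] R), ?_⟩, ?_⟩
    · exact LinearMap.comp_zero (mR (n : R))
    · change augW (mR (n : R) 1) = n
      rw [mR_apply, one_mul]
      simp
  · intro x
    rw [h2]
    exact coh3 x.1

end Pool.Agent.H986PD
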