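import Pool.Agent.Helper158.Perm
import Pool.Agent.Helper158.Bridge

/-!
`G = A *_{ℤ²} A'`, `A = F₃ ⋊_h ℤ`, `A' = F₃ ⋊_h ℤ`, `h` fixes the boundary word
`c = [a,b] d²`; the two copies are glued along `⟨c, t⟩ = ⟨t', c'⟩`.
-/

namespace Pool.Agent.H986PD

open Monoid Monoid.PushoutI Pool.Agent.Helper158

/-- the fibre group -/
abbrev F := FreeGroup (Fin 3)

def xa : F := FreeGroup.of 0
def xb : F := FreeGroup.of 1
def xd : F := FreeGroup.of 2

/-- the boundary word -/
def cw : F := xa * xb * xa⁻¹ * xb⁻¹ * xd * xd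

/-- the word with `g c = u c u⁻¹` -/
def uw : F := xa⁻¹ * xa⁻¹ * xb⁻¹ * xd * xd

def gHom : F →* F := FreeGroup.lift
  ![xa⁻¹ * xa⁻¹ * xb⁻¹ * xd * xd * xa⁻¹ * xb⁻¹, xd * xd * xa⁻¹ * xb⁻¹, xd]

def gInv : F →* F := FreeGroup.lift
  ![xd⁻¹ * xd⁻¹ * xb * xb * xa⁻¹, xb⁻¹ * xd * xd * xa * xb⁻¹ * xb⁻¹ * xd * xd, xd]

@[simp] theorem gHom_xa : gHom xa = xa⁻¹ * xa⁻¹ * xb⁻¹ * xd * xd * xa⁻¹ * xb⁻¹ := by
  simp [gHom, xa]
@[simp] theorem gHom_xb : gHom xb = xd * xd * xa⁻¹ * xb⁻¹ := by
  simp [gHom, xb]
@[simp] theorem gHom_xd : gHom xd = xd := by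
  simp [gHom, xd]
@[simp] theorem gInv_xa : gInv xa = xd⁻¹ * xd⁻¹ * xb * xb * xa⁻¹ := by
  simp [gInv, xa]
@[simp] theorem gInv_xb : gInv xb = xb⁻¹ * xd * xd * xa * xb⁻¹ * xb⁻¹ * xd * xd := by
  simp [gInv, xb]
@[simp] theorem gInv_xd : gInv xd = xd := by
  simp [gInv, xd]

/-- homs out of `F` are determined by the three generators -/
theorem F_ext {K : Type*} [Monoid K] {f g : F →* K} (ha : f xa = g xa) (hb : f xb = g xb)
    (hd : f xd = g xd) : f = g := by
  apply FreeGroup.ext_hom
  intro i
  fin_cases i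
  · exact ha
  · exact hb
  · exact hd

/-- the automorphism `g` -/
def gA : MulAut F where
  toFun := gHom
  invFun := gInv
  left_inv := by
    intro x
    have : gInv.comp gHom = MonoidHom.id F := by
      apply F_ext <;> simp <;> group
    exact DFunLike.congr_fun this x
  right_inv := by
    intro x
    have : gHom.comp gInv = MonoidHom.id F := by
      apply F_ext <;> simp <;> group
    exact DFunLike.congr_fun this x
  map_mul' := map_mul gHom

theorem gA_apply (x : F) : gA x = gHom x := rfl

theorem gA_cw : gA cw = uw * cw * uw⁻¹ := by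
  rw [gA_apply]
  simp only [cw, uw, map_mul, map_inv, gHom_xa, gHom_xb, gHom_xd]
  group

/-- the automorphism fixing `c` -/
def gT : MulAut F := MulAut.conj uw⁻¹ * gA

theorem gT_apply (x : F) : gT x = uw⁻¹ * gHom x * uw := by
  simp [gT, MulAut.mul_apply, gA_apply]

theorem gT_cw : gT cw = cw := by
  rw [gT_apply, ← gA_apply, gA_cw]
  group

theorem exists_hA : ∃ h : MulAut F, h = MulAut.conj cw * gT ^ 4 := ⟨_, rfl⟩

/-- the monodromy (made opaque) -/
noncomputable def hA : MulAut F := Classical.choose exists_hA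

theorem hA_eq : hA = MulAut.conj cw * gT ^ 4 := Classical.choose_spec exists_hA

theorem hA_apply (x : F) : hA x = cw * gT (gT (gT (gT x))) * cw⁻¹ := by
  simp [hA_eq, MulAut.mul_apply, pow_succ]

theorem hA_cw : hA cw = cw := by
  rw [hA_apply, gT_cw, gT_cw, gT_cw, gT_cw]
  group

theorem cw_ne_one : cw ≠ 1 := by decide

attribute [irreducible] cw uw gA gT

/-- the action of `ℤ` on `F` -/
noncomputable abbrev act : Multiplicative ℤ →* MulAut F := zpowersHom (MulAut F) hA

/-- the vertex group -/
abbrev V := F ⋊[act] Multiplicative ℤ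

/-- the edge group `ℤ²` -/
abbrev E := Multiplicative ℤ × Multiplicative ℤ

/-- stable letter -/
noncomputable def tV : V := SemidirectProduct.inr (Multiplicative.ofAdd 1)

/-- inclusion of the fibre -/
noncomputable def fV : F →* V := SemidirectProduct.inl

theorem act_one : act (Multiplicative.ofAdd 1) = hA := by simp [act]

theorem tV_conj (x : F) : tV * fV x * tV⁻¹ = fV (hA x) := by
  have h := SemidirectProduct.inl_aut (φ := act) (Multiplicative.ofAdd 1) x
  rw [map_inv, act_one] at h
  rw [tV, fV]
  rw [h]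

theorem comm_of_conj {K : Type*} [Group K] {t x : K} (h : t * x * t⁻¹ = x) : Commute t x := by
  rw [mul_inv_eq_iff_eq_mul] at h
  exact h

theorem tV_conj_c : tV * fV cw * tV⁻¹ = fV cw := by
  rw [tV_conj, hA_cw]

theorem tV_comm_c : Commute tV (fV cw) := comm_of_conj tV_conj_c

theorem inr_eq (n : Multiplicative ℤ) :
    (SemidirectProduct.inr n : V) = tV ^ (Multiplicative.toAdd n) := by
  rw [tV, ← map_zpow, ← ofAdd_zsmul]
  congr 1
  simp

theorem V_eq (g : V) : g = fV g.left * tV ^ (Multiplicative.toAdd g.right) := by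
  rw [← inr_eq]
  exact (SemidirectProduct.inl_left_mul_inr_right g).symm

/-- the edge map `(i, j) ↦ c^i t^j` -/
noncomputable def φs : E →* V where
  toFun p := fV cw ^ (Multiplicative.toAdd p.1) * tV ^ (Multiplicative.toAdd p.2)
  map_one' := by simp
  map_mul' p q := by
    have h1 : Commute (fV cw ^ (Multiplicative.toAdd q.1)) (tV ^ (Multiplicative.toAdd p.2)) :=
      (tV_comm_c.symm.zpow_left _).zpow_right _
    simp only [Prod.fst_mul, Prod.snd_mul, toAdd_mul, zpow_add]
    exact h1.mul_mul_mul_comm _ _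


theorem φs_eq (p : E) : φs p = ⟨cw ^ (Multiplicative.toAdd p.1), p.2⟩ := by
  change fV cw ^ (Multiplicative.toAdd p.1) * tV ^ (Multiplicative.toAdd p.2) = _
  rw [← map_zpow, ← inr_eq, fV, SemidirectProduct.mk_eq_inl_mul_inr]

theorem φs_injective : Function.Injective φs := by
  rw [injective_iff_map_eq_one]
  rintro ⟨p, q⟩ h
  rw [φs_eq] at h
  have h1 := congrArg SemidirectProduct.left h
  have h2 := congrArg SemidirectProduct.right h
  simp only [SemidirectProduct.one_left, SemidirectProduct.one_right] at h1 h2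
  have hq : Multiplicative.toAdd p = 0 := by
    by_contra hne
    exact cw_ne_one ((IsMulTorsionFree.zpow_eq_one_iff_left hne).1 h1)
  have hq' : p = 1 := by
    rw [← Multiplicative.toAdd.apply_eq_iff_eq, hq]; rfl
  subst hq'
  rw [h2]
  rfl

/-- the edge maps of the amalgam -/
noncomputable def φ (i : Bool) : E →* V :=
  if i then φs else φs.comp (MonoidHom.prod (MonoidHom.snd _ _) (MonoidHom.fst _ _))

theorem φ_injective (i : Bool) : Function.Injective (φ i) := by
  cases i
  · simp only [φ, Bool.false_eq_true, if_false, MonoidHom.coe_comp]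
    refine φs_injective.comp ?_
    rintro ⟨p, q⟩ ⟨p', q'⟩ h
    simp only [MonoidHom.prod_apply, MonoidHom.coe_snd, MonoidHom.coe_fst, Prod.mk.injEq] at h
    rw [h.1, h.2]
  · simpa [φ] using φs_injective

/-- the group -/
abbrev GG : Type := Monoid.PushoutI φ

/-- A length function on the amalgam. -/
theorem exists_level : ∃ ℓ : GG → ℕ, (∀ h g, ℓ (base φ h * g) = ℓ g) ∧
    ∀ g, ∃ i : Bool, ∀ y : V, y ∉ (φ i).range → ℓ g < ℓ (of i y * g) := by
  classical
  obtain ⟨d⟩ := NormalWord.transversal_nonempty φ φ_injective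
  let ℓ : GG → ℕ := fun g => (g • (NormalWord.empty : NormalWord d)).toList.length
  refine ⟨ℓ, ?_, ?_⟩
  · intro h g
    simp only [ℓ, mul_smul, NormalWord.base_smul_def]
  · intro g
    obtain ⟨i, hi⟩ : ∃ i : Bool, (g • (NormalWord.empty : NormalWord d)).fstIdx ≠ some i := by
      cases h : (g • (NormalWord.empty : NormalWord d)).fstIdx with
      | none => exact ⟨true, by simp⟩
      | some i => exact ⟨!i, by simp⟩
    refine ⟨i, fun y hy => ?_⟩
    have h := NormalWord.cons_eq_smul (φ := φ) (i := i) y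
      (g • (NormalWord.empty : NormalWord d)) hi hy
    simp only [ℓ]
    rw [mul_smul, ← h]
    simp

/-- inclusion of the vertex groups -/
noncomputable def vin (i : Bool) : V →* GG := of (φ := φ) (G := fun _ => V) i

/-- inclusion of the edge group -/
noncomputable def ein : E →* GG := base φ

theorem vin_φ (i : Bool) (e : E) : vin i (φ i e) = ein e := of_apply_eq_base φ i e

theorem vin_injective (i : Bool) : Function.Injective (vin i) := of_injective φ_injective i

theorem ein_injective : Function.Injective ein := base_injective φ_injective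

/-- inclusion of the fibre groups -/
noncomputable def fin (i : Bool) : F →* GG := (vin i).comp fV

theorem fin_injective (i : Bool) : Function.Injective (fin i) :=
  (vin_injective i).comp SemidirectProduct.inl_injective

/-- the two boundary words -/
noncomputable def cc (i : Bool) : GG := fin i cw

theorem cc_true : cc true = ein (Multiplicative.ofAdd 1, 1) := by
  rw [← vin_φ true]
  simp [cc, fin, φ, φs]

theorem cc_false : cc false = ein (1, Multiplicative.ofAdd 1) := by
  rw [← vin_φ false]
  simp [cc, fin, φ, φs]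

theorem vin_tV (i : Bool) : vin i tV = cc (!i) := by
  cases i
  · rw [Bool.not_false, cc_true, ← vin_φ false]
    simp [φ, φs]
  · rw [Bool.not_true, cc_false, ← vin_φ true]
    simp [φ, φs]

theorem cc_comm (i j : Bool) : Commute (cc i) (cc j) := by
  have h : Commute (cc true) (cc false) := by
    rw [cc_true, cc_false, commute_iff_eq, ← map_mul, ← map_mul, mul_comm]
  cases i <;> cases j
  · exact Commute.refl _
  · exact h.symm
  · exact h
  · exact Commute.refl _

/-- `c_{!i}` acts on the fibre `F_i` by `h` -/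
theorem cc_conj (i : Bool) (x : F) : cc (!i) * fin i x * (cc (!i))⁻¹ = fin i (hA x) := by
  rw [← vin_tV]
  change vin i tV * vin i (fV x) * (vin i tV)⁻¹ = vin i (fV (hA x))
  rw [← tV_conj, map_mul, map_mul, map_inv]

/-- `G` is generated by the two fibres -/
theorem closure_fin : Subgroup.closure (⋃ i, Set.range (fin i)) = ⊤ := by
  rw [eq_top_iff]
  intro g _
  induction g using PushoutI.induction_on with
  | of i g =>
    change vin i g ∈ _
    rw [V_eq g, map_mul, map_zpow, vin_tV]
    apply Subgroup.mul_mem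
    · exact Subgroup.subset_closure (Set.mem_iUnion.2 ⟨i, ⟨_, rfl⟩⟩)
    · apply Subgroup.zpow_mem
      exact Subgroup.subset_closure (Set.mem_iUnion.2 ⟨!i, ⟨_, rfl⟩⟩)
  | base h =>
    have : h = (Multiplicative.ofAdd 1, 1) ^ (Multiplicative.toAdd h.1)
      * (1, Multiplicative.ofAdd 1) ^ (Multiplicative.toAdd h.2) := by
      ext
      · simp [← ofAdd_zsmul]
      · simp [← ofAdd_zsmul]
    change ein h ∈ _
    rw [this, map_mul, map_zpow, map_zpow, ← cc_true, ← cc_false]
    apply Subgroup.mul_mem
    · apply Subgroup.zpow_mem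
      exact Subgroup.subset_closure (Set.mem_iUnion.2 ⟨true, ⟨_, rfl⟩⟩)
    · apply Subgroup.zpow_mem
      exact Subgroup.subset_closure (Set.mem_iUnion.2 ⟨false, ⟨_, rfl⟩⟩)
  | mul x y hx hy => exact Subgroup.mul_mem _ (hx trivial) (hy trivial)

/-- homs out of `G` agreeing on the fibres are equal -/
theorem GG_ext {K : Type*} [Group K] {f g : GG →* K} (h : ∀ i x, f (fin i x) = g (fin i x)) :
    f = g := by
  have : (⊤ : Subgroup GG) ≤ f.eqLocus g := by
    rw [← closure_fin, Subgroup.closure_le]
    rintro _ ⟨_, ⟨i, rfl⟩, ⟨x, rfl⟩⟩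
    exact h i x
  exact MonoidHom.ext fun x => this (Subgroup.mem_top x)

/-- homs out of the vertex group -/
theorem exists_liftV {K : Type*} [Group K] (f : F →* K) (t : K)
    (hf : ∀ x, t * f x * t⁻¹ = f (hA x)) :
    ∃ v : V →* K, (∀ x, v (fV x) = f x) ∧ v tV = t := by
  refine ⟨SemidirectProduct.lift f (zpowersHom K t) ?_, ?_, ?_⟩
  · intro n
    have key : ∀ m : ℤ, f.comp (MulEquiv.toMonoidHom (hA ^ m)) =
        (MulEquiv.toMonoidHom (MulAut.conj (t ^ m))).comp f := by
      intro m
      induction m using Int.induction_on with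
      | zero => ext1; simp
      | succ m ih =>
        refine MonoidHom.ext fun x => ?_
        have h1 := DFunLike.congr_fun ih (hA x)
        simp only [MonoidHom.comp_apply, MulEquiv.coe_toMonoidHom, MulAut.conj_apply] at h1 ⊢
        rw [zpow_add_one, MulAut.mul_apply, h1, ← hf, zpow_add_one]
        group
      | pred m ih =>
        refine MonoidHom.ext fun x => ?_
        have h1 := DFunLike.congr_fun ih (hA⁻¹ x)
        simp only [MonoidHom.comp_apply, MulEquiv.coe_toMonoidHom, MulAut.conj_apply] at h1 ⊢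
        have h2 := hf (hA⁻¹ x)
        rw [MulAut.apply_inv_self] at h2
        rw [zpow_sub_one, MulAut.mul_apply, h1, ← h2, zpow_sub_one]
        group
    have h := key (Multiplicative.toAdd n)
    exact h
  · intro x
    simp [fV]
  · simp [tV]

/-- construct homs out of `G` -/
theorem exists_lift {K : Type*} [Group K] (f : Bool → F →* K)
    (hf : ∀ i x, f (!i) cw * f i x * (f (!i) cw)⁻¹ = f i (hA x)) :
    ∃ f' : GG →* K, ∀ i x, f' (fin i x) = f i x := by
  have key : ∀ i, ∃ v : V →* K, (∀ x, v (fV x) = f i x) ∧ v tV = f (!i) cw := fun i =>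
    exists_liftV (f i) _ (hf i)
  choose v hv1 hv2 using key
  have hc : ∀ i, Commute (f i cw) (f (!i) cw) := by
    intro i
    have := hf i cw
    rw [hA_cw] at this
    exact (comm_of_conj this).symm
  let b : E →* K := (v true).comp (φ true)
  refine ⟨PushoutI.lift v b ?_, ?_⟩
  · intro i
    cases i
    · refine MonoidHom.ext fun p => ?_
      change v false (φs (p.2, p.1)) = v true (φs p)
      change v false (fV cw ^ (Multiplicative.toAdd p.2) * tV ^ (Multiplicative.toAdd p.1)) =
        v true (fV cw ^ (Multiplicative.toAdd p.1) * tV ^ (Multiplicative.toAdd p.2))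
      rw [map_mul, map_mul, map_zpow, map_zpow, map_zpow, map_zpow, hv1, hv1, hv2, hv2]
      exact (((hc false).zpow_left _).zpow_right _).eq
    · rfl
  · intro i x
    change PushoutI.lift v b _ (of i (fV x)) = _
    rw [PushoutI.lift_of, hv1]

end Pool.Agent.H986PD
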