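import Pool.Agent.H986PD.IMI

set_option autoImplicit false

namespace Pool.Agent.H986PD

open Pool.Agent.Helper158 Finsupp

theorem tree_split_a1 (i : Bool) {q : M} (h : q ∈ IM i) : Finsupp.mapDomain (πV i) q = 0 := by
  let p : MulAction.orbitRel.Quotient (fin i).range GG →
      MulAction.orbitRel.Quotient (vin i).range GG :=
    Quotient.lift (πV i) (by
      rintro x y ⟨⟨_, ⟨e, rfl⟩⟩, rfl⟩
      rw [πV_eq_iff]
      exact ⟨fV e, rfl⟩)
  have hp : πV i = p ∘ πF i := rfl
  rw [hp, Finsupp.mapDomain_comp, mem_IM.1 h, Finsupp.mapDomain_zero]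

theorem tree_split_a2 : ein.range ≤ Subgroup.closure {cc true, cc false} := by
  rintro _ ⟨⟨p, q⟩, rfl⟩
  have : ((p, q) : E) = (Multiplicative.ofAdd 1, 1) ^ (Multiplicative.toAdd p)
      * (1, Multiplicative.ofAdd 1) ^ (Multiplicative.toAdd q) := by
    ext
    · simp [← ofAdd_zsmul]
    · simp [← ofAdd_zsmul]
  rw [this, map_mul, map_zpow, map_zpow, ← cc_true, ← cc_false]
  apply Subgroup.mul_mem
  · exact Subgroup.zpow_mem _ (Subgroup.subset_closure (by simp)) _
  · exact Subgroup.zpow_mem _ (Subgroup.subset_closure (by simp)) _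

/-- to prove -/
theorem tree_split {q : M} (h : ∀ i, q ∈ IM i) :
    ∃ x ∈ IM false, ∃ y ∈ IM true,
      q = (ρ (cc true) x - x) + (ρ (cc false) y - y) := by
  have h3 := tree_lemma q (fun i => tree_split_a1 i (h i))
  let I : AddSubgroup M :=
    { carrier := {m | ∃ u v : M, m = (ρ (cc true) u - u) + (ρ (cc false) v - v)}
      zero_mem' := ⟨0, 0, by simp⟩
      add_mem' := by
        rintro _ _ ⟨u, v, rfl⟩ ⟨u', v', rfl⟩
        exact ⟨u + u', v + v', by simp only [map_add]; abel⟩
      neg_mem' := by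
        rintro _ ⟨u, v, rfl⟩
        exact ⟨-u, -v, by simp only [map_neg]; abel⟩ }
  have h4 : q ∈ I := by
    refine mem_of_mapDomain_eq_zero {cc true, cc false} I ?_ πE ?_ _ h3
    · rintro s (rfl | rfl) x
      · exact ⟨single x 1, 0, by simp⟩
      · exact ⟨0, single x 1, by simp⟩
    · intro x y hxy
      rw [eq_comm, πE_eq_iff] at hxy
      obtain ⟨e, he⟩ := hxy
      exact ⟨ein e, tree_split_a2 ⟨e, rfl⟩, he⟩
  obtain ⟨x, y, hq⟩ := h4
  refine ⟨x, ?_, y, ?_, hq⟩
  · apply IM_inj false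
    have h5 : ρ (cc false) y - y ∈ IM false := sub_mem_IM false cw y
    have h6 : ρ (cc (!false)) x - x = q - (ρ (cc false) y - y) := by
      rw [hq, Bool.not_false]; abel
    rw [h6]
    exact (IM false).sub_mem (h false) h5
  · apply IM_inj true
    have h5 : ρ (cc true) x - x ∈ IM true := sub_mem_IM true cw x
    have h6 : ρ (cc (!true)) y - y = q - (ρ (cc true) x - x) := by
      rw [hq, Bool.not_true]; abel
    rw [h6]
    exact (IM true).sub_mem (h true) h5

/-- to prove -/
theorem aug_split {q : M} (h : q.sum (fun _ n => n) = 0) :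
    ∃ x ∈ IM true, ∃ y ∈ IM false, q = x + y := by
  have h1 : q ∈ IM true ⊔ IM false := by
    refine mem_of_mapDomain_eq_zero (⋃ i, Set.range (fin i)) _ ?_ (fun _ => ()) ?_ q ?_
    · intro s hs x
      obtain ⟨_, ⟨i, rfl⟩, ⟨f, rfl⟩⟩ := hs
      have h2 := sub_mem_IM i f (single x 1)
      rw [permRep_single] at h2
      cases i
      · exact AddSubgroup.mem_sup_right h2
      · exact AddSubgroup.mem_sup_left h2
    · intro x y _
      refine ⟨y * x⁻¹, ?_, by simp⟩
      rw [closure_fin]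
      exact Subgroup.mem_top _
    · rw [Finsupp.mapDomain, ← Finsupp.single_zero (), ← h, Finsupp.single_sum]
  rw [AddSubgroup.mem_sup] at h1
  obtain ⟨x, hx, y, hy, hxy⟩ := h1
  exact ⟨x, hx, y, hy, hxy.symm⟩

/-- to prove -/
theorem aug_IM (i : Bool) {q : M} (h : q ∈ IM i) : q.sum (fun _ n => n) = 0 := by
  have h1 := mem_IM.1 h
  have h2 : (Finsupp.mapDomain (πF i) q).sum (fun _ n => n) = q.sum (fun _ n => n) :=
    Finsupp.sum_mapDomain_index (fun _ => rfl) (fun _ _ _ => rfl)
  rw [← h2, h1, Finsupp.sum_zero_index]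

end Pool.Agent.H986PD
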