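import Pool.Agent.H986PD.RG
import Pool.Agent.H986PD.TS

set_option autoImplicit false

namespace Pool.Agent.H986PD

open Pool.Agent.Helper158 Finsupp

/-! To prove: -/

theorem kt_eI_sub (g : GG) (x : R) : eI (x * (gr g - 1)) = ρ g⁻¹ (eI x) - eI x := by
  rw [mul_sub, mul_one, map_sub, eI_mul]

theorem kt_eW_sub (i : Bool) (x : R) : eW ((gr (cc i) - 1) * x) = ρ (cc i) (eW x) - eW x := by
  rw [sub_mul, one_mul, map_sub, eW_mul_one (wG_cc i)]

theorem kt_ρ_inv (g : GG) (m : M) : ρ g⁻¹ (ρ g m) = m := by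
  rw [ρ_mul, inv_mul_cancel, map_one]
  rfl

theorem kt_ρ_inv' (g : GG) (m : M) : ρ g (ρ g⁻¹ m) = m := by
  rw [ρ_mul, mul_inv_cancel, map_one]
  rfl

theorem kt_sum_R (x : R) : aug x = (eI x).sum (fun _ n => n) := aug_eq' x

theorem kt_sum_L (x : R) : augW x = (eW x).sum (fun _ n => n) := by
  change aug (tw x) = _
  rw [aug_eq]
  rfl

theorem cc_sub_inj_R (i : Bool) {x : R} (h : x * (gr (cc i) - 1) = 0) : x = 0 := by
  have h1 : ρ (cc i)⁻¹ (eI x) - eI x = 0 := by rw [← kt_eI_sub, h, map_zero]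
  have h2 : ρ (cc i) (eI x) - eI x = 0 := by
    have h3 := congrArg (ρ (cc i)) h1
    rw [map_sub, kt_ρ_inv', map_zero] at h3
    rw [← neg_sub, h3, neg_zero]
  have h3 := cc_inj i h2
  exact (AddEquiv.map_eq_zero_iff eI).1 h3

theorem cc_sub_inj_L (i : Bool) {x : R} (h : (gr (cc i) - 1) * x = 0) : x = 0 := by
  have h1 : ρ (cc i) (eW x) - eW x = 0 := by rw [← kt_eW_sub, h, map_zero]
  exact (AddEquiv.map_eq_zero_iff eW).1 (cc_inj i h1)

theorem kos_R {x y : R} (h : x * (gr (cc false) - 1) + y * (gr (cc true) - 1) = 0) :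
    ∃ r, x = r * (gr (cc true) - 1) ∧ y = -(r * (gr (cc false) - 1)) := by
  have h1 : (ρ (cc false)⁻¹ (eI x) - eI x) + (ρ (cc true)⁻¹ (eI y) - eI y) = 0 := by
    rw [← kt_eI_sub, ← kt_eI_sub, ← map_add, h, map_zero]
  obtain ⟨X', hX'⟩ : ∃ X', X' = ρ (cc false)⁻¹ (eI x) := ⟨_, rfl⟩
  obtain ⟨Y', hY'⟩ : ∃ Y', Y' = ρ (cc true)⁻¹ (eI y) := ⟨_, rfl⟩
  have hX : eI x = ρ (cc false) X' := by rw [hX', kt_ρ_inv']
  have hY : eI y = ρ (cc true) Y' := by rw [hY', kt_ρ_inv']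
  rw [← hX', ← hY', hX, hY] at h1
  have h2 : ρ (cc false) X' - X' = ρ (cc (!false)) (-Y') - (-Y') := by
    rw [Bool.not_false, map_neg]
    have h3 : ρ (cc false) X' - X' - (-ρ (cc true) Y' - (-Y')) =
        -(X' - ρ (cc false) X' + (Y' - ρ (cc true) Y')) := by abel
    rw [← sub_eq_zero, h3, h1, neg_zero]
  obtain ⟨u, hu1, hu2⟩ := kos false h2
  rw [Bool.not_false] at hu1
  have hu2' : Y' = -(ρ (cc false) u - u) := by rw [← hu2, neg_neg]
  have hc : ρ (cc true) (ρ (cc false) u) = ρ (cc false) (ρ (cc true) u) := by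
    rw [ρ_mul, ρ_mul, (cc_comm true false).eq]
  have hR : eI (eI.symm (-(ρ (cc false) (ρ (cc true) u)))) = -(ρ (cc false) (ρ (cc true) u)) :=
    AddEquiv.apply_symm_apply _ _
  refine ⟨eI.symm (-(ρ (cc false) (ρ (cc true) u))), ?_, ?_⟩
  · apply eI.injective
    rw [kt_eI_sub, hR, hX, hu1, map_neg, ← hc, kt_ρ_inv, map_sub, hc]
    abel
  · apply eI.injective
    rw [map_neg, kt_eI_sub, hR, hY, hu2', map_neg, map_neg, kt_ρ_inv, map_sub, hc]
    abel

theorem kos_L {x y : R} (h : (gr (cc false) - 1) * x + (gr (cc true) - 1) * y = 0) :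
    ∃ r, x = (gr (cc true) - 1) * r ∧ y = -((gr (cc false) - 1) * r) := by
  have h1 : (ρ (cc false) (eW x) - eW x) + (ρ (cc true) (eW y) - eW y) = 0 := by
    rw [← kt_eW_sub, ← kt_eW_sub, ← map_add, h, map_zero]
  have h2 : ρ (cc false) (eW x) - eW x = ρ (cc (!false)) (-eW y) - (-eW y) := by
    rw [Bool.not_false, map_neg]
    have h3 : ρ (cc false) (eW x) - eW x - (-ρ (cc true) (eW y) - (-eW y)) =
        (ρ (cc false) (eW x) - eW x) + (ρ (cc true) (eW y) - eW y) := by abel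
    rw [← sub_eq_zero, h3, h1]
  obtain ⟨u, hu1, hu2⟩ := kos false h2
  rw [Bool.not_false] at hu1
  have hR : eW (eW.symm u) = u := AddEquiv.apply_symm_apply _ _
  refine ⟨eW.symm u, ?_, ?_⟩
  · apply eW.injective
    rw [kt_eW_sub, hR, hu1]
  · apply eW.injective
    rw [map_neg, kt_eW_sub, hR, ← hu2, neg_neg]

theorem tree_R {x : R} (h : ∀ i, x ∈ L i) :
    ∃ q ∈ L true, ∃ q' ∈ L false, x = q * (gr (cc false) - 1) + q' * (gr (cc true) - 1) := by
  obtain ⟨X', hX', Y', hY', hx⟩ := tree_split (q := eI x) (fun i => mem_L.1 (h i))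
  have hq : eI (eI.symm (-(ρ (cc false) Y'))) = -(ρ (cc false) Y') :=
    AddEquiv.apply_symm_apply _ _
  have hq' : eI (eI.symm (-(ρ (cc true) X'))) = -(ρ (cc true) X') :=
    AddEquiv.apply_symm_apply _ _
  have h1 : ρ (cc false) Y' ∈ IM true := IM_smul_cc true hY'
  have h2 : ρ (cc true) X' ∈ IM false := IM_smul_cc false hX'
  refine ⟨eI.symm (-(ρ (cc false) Y')), ?_, eI.symm (-(ρ (cc true) X')), ?_, ?_⟩
  · rw [mem_L, hq]
    exact (IM true).neg_mem h1
  · rw [mem_L, hq']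
    exact (IM false).neg_mem h2
  · apply eI.injective
    rw [map_add, kt_eI_sub, kt_eI_sub, hq, hq', map_neg, map_neg, kt_ρ_inv, kt_ρ_inv, hx]
    abel

theorem tree_L {x : R} (h : ∀ i, x ∈ J i) :
    ∃ q ∈ J true, ∃ q' ∈ J false, x = (gr (cc false) - 1) * q + (gr (cc true) - 1) * q' := by
  obtain ⟨X', hX', Y', hY', hx⟩ := tree_split (q := eW x) (fun i => mem_J.1 (h i))
  have hq : eW (eW.symm Y') = Y' := AddEquiv.apply_symm_apply _ _
  have hq' : eW (eW.symm X') = X' := AddEquiv.apply_symm_apply _ _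
  refine ⟨eW.symm Y', ?_, eW.symm X', ?_, ?_⟩
  · rw [mem_J, hq]
    exact hY'
  · rw [mem_J, hq']
    exact hX'
  · apply eW.injective
    rw [map_add, kt_eW_sub, kt_eW_sub, hq, hq', hx]
    abel

theorem aug_R {x : R} : aug x = 0 ↔ ∃ q ∈ L true, ∃ q' ∈ L false, x = q - q' := by
  constructor
  · intro h
    rw [kt_sum_R] at h
    obtain ⟨X', hX', Y', hY', hx⟩ := aug_split h
    have hq : eI (eI.symm X') = X' := AddEquiv.apply_symm_apply _ _
    have hq' : eI (eI.symm (-Y')) = -Y' := AddEquiv.apply_symm_apply _ _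
    refine ⟨eI.symm X', ?_, eI.symm (-Y'), ?_, ?_⟩
    · rw [mem_L, hq]
      exact hX'
    · rw [mem_L, hq']
      exact (IM false).neg_mem hY'
    · apply eI.injective
      rw [map_sub, hq, hq', hx, sub_neg_eq_add]
  · rintro ⟨q, hq, q', hq', rfl⟩
    rw [map_sub, kt_sum_R, kt_sum_R, aug_IM true (mem_L.1 hq), aug_IM false (mem_L.1 hq'),
      sub_zero]

theorem aug_L {x : R} : augW x = 0 ↔ ∃ q ∈ J true, ∃ q' ∈ J false, x = q - q' := by
  constructor
  · intro h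
    rw [kt_sum_L] at h
    obtain ⟨X', hX', Y', hY', hx⟩ := aug_split h
    have hq : eW (eW.symm X') = X' := AddEquiv.apply_symm_apply _ _
    have hq' : eW (eW.symm (-Y')) = -Y' := AddEquiv.apply_symm_apply _ _
    refine ⟨eW.symm X', ?_, eW.symm (-Y'), ?_, ?_⟩
    · rw [mem_J, hq]
      exact hX'
    · rw [mem_J, hq']
      exact (IM false).neg_mem hY'
    · apply eW.injective
      rw [map_sub, hq, hq', hx, sub_neg_eq_add]
  · rintro ⟨q, hq, q', hq', rfl⟩
    rw [map_sub, kt_sum_L, kt_sum_L, aug_IM true (mem_J.1 hq), aug_IM false (mem_J.1 hq'),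
      sub_zero]

end Pool.Agent.H986PD
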