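import Mathlib

set_option autoImplicit false

namespace Pool.Agent.H986PD

/-- augmentation -/
noncomputable def fgfp_aug (H : Type) [Group H] : MonoidAlgebra ℤ H →+* ℤ :=
  (MonoidAlgebra.lift ℤ ℤ H (1 : H →* ℤ) : MonoidAlgebra ℤ H →ₐ[ℤ] ℤ).toRingHom

theorem fgfp_aug_single {H : Type} [Group H] (g : H) (a : ℤ) :
    fgfp_aug H (MonoidAlgebra.single g a) = a := by
  show MonoidAlgebra.lift ℤ ℤ H (1 : H →* ℤ) (MonoidAlgebra.single g a) = a
  rw [MonoidAlgebra.lift_single]
  simp

/-- pushing forward to the cosets -/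
noncomputable def fgfp_phi {H : Type} [Group H] (H0 : Subgroup H) :
    MonoidAlgebra ℤ H →+ (H ⧸ H0 →₀ ℤ) :=
  (Finsupp.mapDomain.addMonoidHom (fun h : H => (h : H ⧸ H0))).comp
    (MonoidAlgebra.coeffAddEquiv (R := ℤ) (M := H)).toAddMonoidHom

theorem fgfp_phi_single {H : Type} [Group H] (H0 : Subgroup H) (g : H) (a : ℤ) :
    fgfp_phi H0 (MonoidAlgebra.single g a) = Finsupp.single (g : H ⧸ H0) a := by
  show Finsupp.mapDomain (fun h : H => (h : H ⧸ H0)) (Finsupp.single g a) = _
  rw [Finsupp.mapDomain_single]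

theorem fgfp_kill {H : Type} [Group H] (H0 : Subgroup H) (y : MonoidAlgebra ℤ H)
    (hy0 : fgfp_aug H y = 0) (hy : ∀ h ∈ y.coeff.support, h ∈ H0) (r : MonoidAlgebra ℤ H) :
    fgfp_phi H0 (r * y) = 0 := by
  have hsum : y = ∑ h ∈ y.coeff.support, MonoidAlgebra.single h (y.coeff h) :=
    (MonoidAlgebra.sum_coeff_single y).symm
  have haug : ∑ h ∈ y.coeff.support, y.coeff h = 0 := by
    rw [hsum, map_sum] at hy0
    simpa [fgfp_aug_single] using hy0
  induction r using MonoidAlgebra.induction_linear with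
  | zero => rw [zero_mul, map_zero]
  | add r s hr hs => rw [add_mul, map_add, hr, hs, add_zero]
  | single g a =>
    have h1 : MonoidAlgebra.single g a * y =
        ∑ h ∈ y.coeff.support, MonoidAlgebra.single (g * h) (a * y.coeff h) := by
      conv_lhs => rw [hsum]
      rw [Finset.mul_sum]
      refine Finset.sum_congr rfl fun h _ => ?_
      rw [MonoidAlgebra.single_mul_single]
    rw [h1, map_sum]
    have h2 : ∀ h ∈ y.coeff.support, fgfp_phi H0 (MonoidAlgebra.single (g * h) (a * y.coeff h)) =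
        Finsupp.single (g : H ⧸ H0) (a * y.coeff h) := by
      intro h hh
      rw [fgfp_phi_single]
      congr 1
      rw [QuotientGroup.eq]
      simpa using H0.inv_mem (hy h hh)
    rw [Finset.sum_congr rfl h2]
    have h3 : ∑ h ∈ y.coeff.support, Finsupp.single (g : H ⧸ H0) (a * y.coeff h) =
        Finsupp.single (g : H ⧸ H0) (∑ h ∈ y.coeff.support, a * y.coeff h) := by
      have := map_sum (Finsupp.singleAddHom (M := ℤ) (g : H ⧸ H0)) (fun h => a * y.coeff h)
        y.coeff.support
      exact this.symm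
    rw [h3, ← Finset.mul_sum, haug, mul_zero, Finsupp.single_zero]

/-- A group `H` whose trivial module has a partial projective resolution with finitely generated
`P₀` (projective) and `P₁` is finitely generated. -/
theorem fg_of_FP {H : Type} [Group H] (P0 P1 : Type) [AddCommGroup P0] [AddCommGroup P1]
    [Module (MonoidAlgebra ℤ H) P0] [Module (MonoidAlgebra ℤ H) P1]
    [Module.Finite (MonoidAlgebra ℤ H) P1]
    [Module.Projective (MonoidAlgebra ℤ H) P0] (d : P1 →ₗ[MonoidAlgebra ℤ H] P0) (ε : P0 →+ ℤ)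
    (hs : Function.Surjective ε)
    (he : ∀ (h : H) (x : P0), ε (MonoidAlgebra.of ℤ H h • x) = ε x)
    (hex : ∀ x : P0, ε x = 0 ↔ x ∈ LinearMap.range d) : Group.FG H := by
  classical
  have hε : ∀ (r : MonoidAlgebra ℤ H) (x : P0), ε (r • x) = fgfp_aug H r * ε x := by
    intro r x
    induction r using MonoidAlgebra.induction_linear with
    | zero => simp
    | add r s hr hs => rw [add_smul, map_add, hr, hs, map_add, add_mul]
    | single g a =>
      have h1 : MonoidAlgebra.single g a = a • MonoidAlgebra.of ℤ H g := by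
        rw [MonoidAlgebra.of_apply, MonoidAlgebra.smul_single, smul_eq_mul, mul_one]
      rw [fgfp_aug_single, h1, smul_assoc, map_zsmul, he, smul_eq_mul]
  -- the lifting
  obtain ⟨f, hf⟩ : ∃ f : P0 →ₗ[MonoidAlgebra ℤ H] MonoidAlgebra ℤ H,
      ∀ x, fgfp_aug H (f x) = ε x := by
    letI : Module (MonoidAlgebra ℤ H) ℤ := Module.compHom ℤ (fgfp_aug H)
    let augL : MonoidAlgebra ℤ H →ₗ[MonoidAlgebra ℤ H] ℤ :=
      { toFun := fgfp_aug H
        map_add' := map_add (fgfp_aug H)
        map_smul' := fun r x => map_mul (fgfp_aug H) r x }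
    let εL : P0 →ₗ[MonoidAlgebra ℤ H] ℤ :=
      { toFun := ε
        map_add' := map_add ε
        map_smul' := fun r x => hε r x }
    obtain ⟨f, hf⟩ := Module.projective_lifting_property augL εL
      (fun z => ⟨MonoidAlgebra.single 1 z, fgfp_aug_single 1 z⟩)
    exact ⟨f, fun x => LinearMap.congr_fun hf x⟩
  obtain ⟨e, he1⟩ := hs 1
  obtain ⟨S, hS⟩ := (Module.Finite.fg_top : (⊤ : Submodule (MonoidAlgebra ℤ H) P1).FG)
  let T : Finset H := S.biUnion (fun s => (f (d s)).coeff.support) ∪ (1 - f e).coeff.support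
  let H0 : Subgroup H := Subgroup.closure (T : Set H)
  have hT : ∀ h ∈ T, h ∈ H0 := fun h hh => Subgroup.subset_closure hh
  let K : Submodule (MonoidAlgebra ℤ H) (MonoidAlgebra ℤ H) :=
    { carrier := {y | ∀ r, fgfp_phi H0 (r * y) = 0}
      zero_mem' := fun r => by rw [mul_zero, map_zero]
      add_mem' := fun {a b} ha hb r => by rw [mul_add, map_add, ha r, hb r, add_zero]
      smul_mem' := fun c x hx r => by rw [smul_eq_mul, ← mul_assoc]; exact hx _ }
  have hK1 : (1 - f e) ∈ K := by
    refine fgfp_kill H0 _ ?_ ?_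
    · rw [map_sub, map_one, hf, he1, sub_self]
    · intro h hh
      exact hT h (Finset.mem_union_right _ hh)
  have hd0 : ∀ p, ε (d p) = 0 := fun p => (hex _).2 ⟨p, rfl⟩
  have hK2 : ∀ p, f (d p) ∈ K := by
    have h1 : (⊤ : Submodule (MonoidAlgebra ℤ H) P1) ≤ K.comap (f.comp d) := by
      rw [← hS, Submodule.span_le]
      intro s hs'
      show f (d s) ∈ K
      refine fgfp_kill H0 _ ?_ ?_
      · rw [hf, hd0]
      · intro h hh
        exact hT h (Finset.mem_union_left _ (Finset.mem_biUnion.2 ⟨s, hs', hh⟩))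
    exact fun p => h1 (Submodule.mem_top : p ∈ ⊤)
  have hI : ∀ r, fgfp_aug H r = 0 → r ∈ K := by
    intro r hr
    have h1 : ε (r • e) = 0 := by rw [hε, hr, zero_mul]
    obtain ⟨p, hp⟩ := (hex _).1 h1
    have h2 : r = f (d p) + r • (1 - f e) := by
      rw [hp, map_smul, smul_sub, smul_eq_mul, smul_eq_mul, mul_one]
      abel
    rw [h2]
    exact K.add_mem (hK2 p) (K.smul_mem r hK1)
  have htop : H0 = ⊤ := by
    rw [eq_top_iff]
    intro h _
    have h1 : (MonoidAlgebra.single h 1 - MonoidAlgebra.single 1 1 : MonoidAlgebra ℤ H) ∈ K := by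
      apply hI
      rw [map_sub, fgfp_aug_single, fgfp_aug_single, sub_self]
    have h2 := h1 1
    rw [one_mul, map_sub, fgfp_phi_single, fgfp_phi_single, sub_eq_zero] at h2
    have h3 := Finsupp.single_left_injective (one_ne_zero : (1 : ℤ) ≠ 0) h2
    rw [QuotientGroup.eq] at h3
    simpa using h3
  exact Group.fg_iff.2 ⟨(T : Set H), htop, T.finite_toSet⟩

end Pool.Agent.H986PD
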