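import Pool.Agent.H986PD.PM

set_option autoImplicit false

namespace Pool.Agent.H986PD

open Pool.Agent.Helper158 Finsupp

/-- Fox independence for a free basis of the fibre group. -/
theorem fox_indep (i : Bool) (α : F →* F) (hα : Function.Injective α) (m : Fin 3 → M)
    (h : ∑ k, (ρ (fin i (α (FreeGroup.of k))) (m k) - m k) = 0) : m = 0 := by
  obtain ⟨D, h1, _⟩ := exists_fox (G := GG) (X := GG) (ι := Fin 3) (B := Multiplicative Unit)
    (((fin i).comp α).comp (MonoidHom.fst (FreeGroup (Fin 3)) (Multiplicative Unit)))
    (fun v x hv => by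
      rw [smul_eq_mul, mul_eq_right] at hv
      have h2 : fin i (α v.1) = 1 := hv
      have h3 := (injective_iff_map_eq_one _).1 (fin_injective i) _ h2
      have h4 := (injective_iff_map_eq_one _).1 hα _ h3
      exact Prod.ext h4 (Subsingleton.elim _ _))
  funext k
  have h5 := congrArg (D k) h
  rw [map_sum, map_zero] at h5
  have h6 : ∀ l, D k (ρ (fin i (α (FreeGroup.of l))) (m l) - m l) = if k = l then m l else 0 := by
    intro l
    have := h1 k l (m l)
    rw [map_sub]
    rw [sub_eq_iff_eq_add, add_comm]
    exact this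
  rw [Finset.sum_congr rfl fun l _ => h6 l, Finset.sum_ite_eq] at h5
  simpa using h5


end Pool.Agent.H986PD
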