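import Pool.Agent.H986PD.Aff

set_option autoImplicit false

namespace Pool.Agent.H986PD

/-! To prove: -/

/-- additive version of `yF` -/
noncomputable def CFY (x : F) : ℤ := Multiplicative.toAdd (yF x)

theorem CFY_mul (x x' : F) : CFY (x * x') = CFY x + CFY x' := by
  unfold CFY
  rw [map_mul, toAdd_mul]

theorem CFY_one : CFY 1 = 0 := by
  unfold CFY
  rw [map_one, toAdd_one]

theorem CFY_inv (x : F) : CFY x⁻¹ = -CFY x := by
  unfold CFY
  rw [map_inv, toAdd_inv]

theorem CFY_hA (x : F) : CFY (hA x) = CFY x := by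
  unfold CFY
  rw [yF_hA]

theorem CFY_cw : CFY cw = 2 := by
  unfold CFY
  rw [yF_cw, toAdd_ofAdd]

theorem CFY_zpow (x : F) (n : ℤ) : CFY (x ^ n) = n * CFY x := by
  unfold CFY
  rw [map_zpow, toAdd_zpow, smul_eq_mul]

theorem CFY_xb : CFY xb = 1 := by
  unfold CFY yF xb
  rw [FreeGroup.lift_apply_of]
  rfl

theorem CF_hA_zpow_cw (n : ℤ) : (hA ^ n) cw = cw := by
  induction n using Int.induction_on with
  | zero => simp
  | succ n ih => rw [zpow_add_one, MulAut.mul_apply, hA_cw, ih]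
  | pred n ih =>
    rw [zpow_sub_one, MulAut.mul_apply]
    have h : hA⁻¹ cw = cw := by
      have h2 := MulAut.inv_apply_self F hA cw
      rwa [hA_cw] at h2
    rw [h, ih]

theorem CF_hA_zpow_Y (n : ℤ) : ∀ x, CFY ((hA ^ n) x) = CFY x := by
  induction n using Int.induction_on with
  | zero => simp
  | succ n ih =>
    intro x
    rw [zpow_add_one, MulAut.mul_apply, ih, CFY_hA]
  | pred n ih =>
    intro x
    rw [zpow_sub_one, MulAut.mul_apply, ih, ← CFY_hA, MulAut.apply_inv_self]

theorem CF_fin_hA (i : Bool) (n : ℤ) : ∀ x,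
    fin i ((hA ^ n) x) = cc (!i) ^ n * fin i x * (cc (!i) ^ n)⁻¹ := by
  induction n using Int.induction_on with
  | zero => simp
  | succ n ih =>
    intro x
    rw [zpow_add_one, MulAut.mul_apply, ih, ← cc_conj, zpow_add_one]
    group
  | pred n ih =>
    intro x
    have h := cc_conj i (hA⁻¹ x)
    rw [MulAut.apply_inv_self] at h
    rw [zpow_sub_one, MulAut.mul_apply, ih, ← h, zpow_sub_one]
    group

/-- coset representatives -/
noncomputable def CFa (p : ℤ) : F := (if p % 2 = 1 then xb else 1) * cw ^ (p / 2)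

theorem CFa_add (p : ℤ) : CFa (p + 2) = CFa p * cw := by
  unfold CFa
  have h1 : (p + 2) % 2 = p % 2 := by omega
  have h2 : (p + 2) / 2 = p / 2 + 1 := by omega
  rw [h1, h2, zpow_add_one, mul_assoc]

theorem CFY_a (p : ℤ) : CFY (CFa p) = p := by
  unfold CFa
  rw [CFY_mul, CFY_zpow, CFY_cw]
  rcases Int.emod_two_eq_zero_or_one p with h | h
  · rw [if_neg (by omega), CFY_one]; omega
  · rw [if_pos h, CFY_xb]; omega

/-- conjugators -/
noncomputable def CFb (i e : Bool) : GG := if e then fin (!i) xb else 1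

theorem CF_exists_Phi : ∃ (Φ : Type) (_ : Group Φ) (_ : IsFreeGroup Φ)
    (ι : Bool → Bool → F → Φ) (z : Φ) (j : Φ →* GG),
    (∀ i e x x', CFY x = 0 → CFY x' = 0 → ι i e (x * x') = ι i e x * ι i e x') ∧
    (∀ i e x, CFY x = 0 → j (ι i e x) = CFb i e * fin i x * (CFb i e)⁻¹) ∧
    j z = fin false xb * fin true xb * (fin false xb)⁻¹ * (fin true xb)⁻¹ := by
  classical
  let e0 : yF.ker ≃* FreeGroup (IsFreeGroup.Generators yF.ker) := IsFreeGroup.toFreeGroup yF.ker
  let ι0 : Bool → Bool → yF.ker →* FreeGroup (Option (Bool × Bool ×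
      IsFreeGroup.Generators yF.ker)) := fun i e =>
    (FreeGroup.lift (fun x => FreeGroup.of (some (i, e, x)))).comp e0.toMonoidHom
  let j : FreeGroup (Option (Bool × Bool × IsFreeGroup.Generators yF.ker)) →* GG :=
    FreeGroup.lift (fun o => o.elim
      (fin false xb * fin true xb * (fin false xb)⁻¹ * (fin true xb)⁻¹)
      (fun t => CFb t.1 t.2.1 * fin t.1 ((e0.symm (FreeGroup.of t.2.2) : yF.ker) : F) *
        (CFb t.1 t.2.1)⁻¹))
  have hj : ∀ i e (k : yF.ker), j (ι0 i e k) = CFb i e * fin i (k : F) * (CFb i e)⁻¹ := by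
    intro i e k
    have h : (j.comp (ι0 i e)).comp e0.symm.toMonoidHom =
        ((MulAut.conj (CFb i e)).toMonoidHom.comp ((fin i).comp yF.ker.subtype)).comp
          e0.symm.toMonoidHom := by
      apply FreeGroup.ext_hom
      intro x
      change j (FreeGroup.lift (fun x => FreeGroup.of (some (i, e, x)))
        (e0 (e0.symm (FreeGroup.of x)))) = CFb i e * fin i ((e0.symm (FreeGroup.of x) :
          yF.ker) : F) * (CFb i e)⁻¹
      rw [MulEquiv.apply_symm_apply, FreeGroup.lift_apply_of]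
      change FreeGroup.lift _ _ = _
      rw [FreeGroup.lift_apply_of]
      rfl
    have h1 := DFunLike.congr_fun h (e0 k)
    change j (ι0 i e (e0.symm (e0 k))) = CFb i e * fin i ((e0.symm (e0 k) : yF.ker) : F) *
      (CFb i e)⁻¹ at h1
    rwa [MulEquiv.symm_apply_apply] at h1
  have hK : ∀ x : F, CFY x = 0 → x ∈ yF.ker := by
    intro x hx
    rw [MonoidHom.mem_ker]
    unfold CFY at hx
    exact toAdd_eq_zero.1 hx
  refine ⟨FreeGroup (Option (Bool × Bool × IsFreeGroup.Generators yF.ker)), inferInstance,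
    inferInstance, fun i e x => if h : x ∈ yF.ker then ι0 i e ⟨x, h⟩ else 1, FreeGroup.of none,
    j, ?_, ?_, ?_⟩
  · intro i e x x' hx hx'
    beta_reduce
    rw [dif_pos (hK x hx), dif_pos (hK x' hx'), dif_pos (Subgroup.mul_mem _ (hK x hx) (hK x' hx')),
      ← map_mul]
    rfl
  · intro i e x hx
    beta_reduce
    rw [dif_pos (hK x hx), hj]
  · change FreeGroup.lift _ _ = _
    rw [FreeGroup.lift_apply_of]
    rfl

theorem CF_exists_perm {G X : Type} [Group G] (a : G → X → X) (h1 : ∀ x, a 1 x = x)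
    (hm : ∀ g h x, a (g * h) x = a g (a h x)) :
    ∃ f : G →* Equiv.Perm X, ∀ g x, f g x = a g x := by
  refine ⟨{
    toFun := fun g => (⟨a g, a g⁻¹, fun x => ?_, fun x => ?_⟩ : Equiv.Perm X)
    map_one' := ?_
    map_mul' := ?_ }, ?_⟩
  · rw [← hm, inv_mul_cancel, h1]
  · rw [← hm, mul_inv_cancel, h1]
  · exact Equiv.ext h1
  · intro g h
    exact Equiv.ext (hm g h)
  · intro g x
    rfl

/-- coordinate vectors -/
def CFs (i : Bool) (t : ℤ) : Bool → ℤ := fun k => if k = i then t else 0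

theorem CFs_same (i : Bool) (t : ℤ) : CFs i t i = t := if_pos rfl

theorem CFs_ne {i k : Bool} (h : k ≠ i) (t : ℤ) : CFs i t k = 0 := if_neg h

theorem CFs_zero (i : Bool) : CFs i 0 = 0 := by
  funext k
  unfold CFs
  split_ifs <;> rfl

theorem CFs_add (i : Bool) (s t : ℤ) : CFs i (s + t) = CFs i s + CFs i t := by
  funext k
  rw [Pi.add_apply]
  unfold CFs
  split_ifs <;> simp

theorem CF_not_single (i : Bool) (q : Bool → ℤ) (t : ℤ) : (q - CFs i t) (!i) = q (!i) := by
  rw [Pi.sub_apply, CFs_ne (by cases i <;> decide), sub_zero]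

theorem CF_self_single (i : Bool) (q : Bool → ℤ) (t : ℤ) : (q - CFs i t) i = q i - t := by
  rw [Pi.sub_apply, CFs_same]

/-- `χ` -/
theorem CF_exists_chi : ∃ χ : GG →* Multiplicative (Bool → ℤ), ∀ i x,
    χ (fin i x) = Multiplicative.ofAdd (CFs i (CFY x)) := by
  refine exists_lift (fun i => {
    toFun := fun x => Multiplicative.ofAdd (CFs i (CFY x))
    map_one' := by rw [CFY_one, CFs_zero, ofAdd_zero]
    map_mul' := fun x x' => by rw [CFY_mul, CFs_add, ofAdd_add] }) ?_
  intro i x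
  rw [mul_comm, inv_mul_cancel_left]
  change Multiplicative.ofAdd (CFs i (CFY x)) = Multiplicative.ofAdd (CFs i
    (CFY (hA x)))
  rw [CFY_hA]

section theta

variable {Φ : Type} [Group Φ] (ι : Bool → Bool → F → Φ) (z : Φ)

/-- the correction -/
noncomputable def CFg (i : Bool) (q : Bool → ℤ) : Φ :=
  if i = true ∧ q true % 2 = 1 ∧ q false % 2 = 1 then z else 1

/-- the cocycle -/
noncomputable def CFc (i : Bool) (x : F) (q : Bool → ℤ) : Φ :=
  (CFg z i (q - CFs i (CFY x)))⁻¹ *
    ι i (decide (q (!i) % 2 = 1)) (CFa (q i - CFY x) * (hA ^ (q (!i) / 2)) x * (CFa (q i))⁻¹) *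
    CFg z i q

variable {ι}

theorem CFc_mem (i : Bool) (x : F) (q : Bool → ℤ) (n : ℤ) :
    CFY (CFa (q i - CFY x) * (hA ^ n) x * (CFa (q i))⁻¹) = 0 := by
  rw [CFY_mul, CFY_mul, CFY_inv, CFY_a, CFY_a, CF_hA_zpow_Y]
  ring

variable (hι : ∀ i e x x', CFY x = 0 → CFY x' = 0 → ι i e (x * x') = ι i e x * ι i e x')

include hι

theorem CFι_one (i e : Bool) : ι i e 1 = 1 := by
  have h := hι i e 1 1 CFY_one CFY_one
  rw [mul_one] at h
  exact (mul_eq_left.1 h.symm)

theorem CFc_one (i : Bool) (q : Bool → ℤ) : CFc ι z i 1 q = 1 := by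
  unfold CFc
  rw [CFY_one, CFs_zero, sub_zero, sub_zero, map_one, mul_one, mul_inv_cancel,
    CFι_one hι, mul_one, inv_mul_cancel]

theorem CFc_mul (i : Bool) (x x' : F) (q : Bool → ℤ) :
    CFc ι z i (x * x') q = CFc ι z i x (q - CFs i (CFY x')) * CFc ι z i x' q := by
  unfold CFc
  rw [CF_not_single, CF_self_single]
  have h1 : CFa (q i - CFY (x * x')) * (hA ^ (q (!i) / 2)) (x * x') * (CFa (q i))⁻¹ =
      (CFa (q i - CFY x' - CFY x) * (hA ^ (q (!i) / 2)) x * (CFa (q i - CFY x'))⁻¹) *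
      (CFa (q i - CFY x') * (hA ^ (q (!i) / 2)) x' * (CFa (q i))⁻¹) := by
    rw [map_mul, CFY_mul]
    have e : q i - (CFY x + CFY x') = q i - CFY x' - CFY x := by ring
    rw [e]
    group
  have h2 : CFY (CFa (q i - CFY x' - CFY x) * (hA ^ (q (!i) / 2)) x *
      (CFa (q i - CFY x'))⁻¹) = 0 := by
    rw [CFY_mul, CFY_mul, CFY_inv, CFY_a, CFY_a, CF_hA_zpow_Y]
    ring
  rw [h1, hι _ _ _ _ h2 (CFc_mem i x' q _)]
  have e2 : q - CFs i (CFY x') - CFs i (CFY x) = q - CFs i (CFY (x * x')) := by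
    rw [CFY_mul, CFs_add]
    abel
  rw [e2]
  group

/-- the action of `F_i` -/
theorem CF_exists_f (i : Bool) : ∃ f : F →* Equiv.Perm ((Bool → ℤ) × Φ), ∀ x p,
    f x p = (p.1 - CFs i (CFY x), CFc ι z i x p.1 * p.2) := by
  refine CF_exists_perm (fun x p => (p.1 - CFs i (CFY x), CFc ι z i x p.1 * p.2)) ?_ ?_
  · intro p
    beta_reduce
    rw [CFY_one, CFs_zero, sub_zero, CFc_one z hι, one_mul]
  · intro x x' p
    beta_reduce
    rw [CFc_mul z hι, mul_assoc, CFY_mul, CFs_add]
    refine Prod.ext ?_ rfl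
    show p.1 - (CFs i (CFY x) + CFs i (CFY x')) = p.1 - CFs i (CFY x') - CFs i (CFY x)
    abel

theorem CFc_cw (i : Bool) (q : Bool → ℤ) : CFc ι z i cw q = 1 := by
  unfold CFc
  have h1 : CFa (q i - CFY cw) * (hA ^ (q (!i) / 2)) cw * (CFa (q i))⁻¹ = 1 := by
    rw [CF_hA_zpow_cw, ← CFa_add, CFY_cw, sub_add_cancel, mul_inv_cancel]
  have h2 : CFg z i (q - CFs i (CFY cw)) = CFg z i q := by
    unfold CFg
    rw [CFY_cw]
    have h3 : ∀ k, (q - CFs i (2 : ℤ)) k % 2 = q k % 2 := by
      intro k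
      rw [Pi.sub_apply]
      by_cases hk : k = i
      · rw [hk, CFs_same]; omega
      · rw [CFs_ne hk, sub_zero]
    rw [h3, h3]
  rw [h1, h2, CFι_one hι, mul_one, inv_mul_cancel]

theorem CFc_shift (i : Bool) (x : F) (q : Bool → ℤ) :
    CFc ι z i x (q + CFs (!i) 2) = CFc ι z i (hA x) q := by
  have h3 : ∀ (r : Bool → ℤ) k, (r + CFs (!i) (2 : ℤ)) k % 2 = r k % 2 := by
    intro r k
    rw [Pi.add_apply]
    by_cases hk : k = !i
    · rw [hk, CFs_same]; omega
    · rw [CFs_ne hk, add_zero]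
  have h4 : ∀ r : Bool → ℤ, CFg z i (r + CFs (!i) 2) = CFg z i r := by
    intro r
    unfold CFg
    rw [h3, h3]
  have h5 : (q + CFs (!i) (2 : ℤ)) i = q i := by
    rw [Pi.add_apply, CFs_ne (by cases i <;> decide), add_zero]
  have h6 : (q + CFs (!i) (2 : ℤ)) (!i) / 2 = q (!i) / 2 + 1 := by
    rw [Pi.add_apply, CFs_same]; omega
  unfold CFc
  rw [h5, h6, h3, h4, CFY_hA, zpow_add_one, MulAut.mul_apply]
  have h7 : q + CFs (!i) 2 - CFs i (CFY x) = q - CFs i (CFY x) +
      CFs (!i) 2 := by abel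
  rw [h7, h4]

theorem CF_exists_Theta : ∃ Θ : GG →* Equiv.Perm ((Bool → ℤ) × Φ), ∀ i x p,
    Θ (fin i x) p = (p.1 - CFs i (CFY x), CFc ι z i x p.1 * p.2) := by
  choose f hf using CF_exists_f (Φ := Φ) (ι := ι) z hι
  obtain ⟨Θ, hΘ⟩ := exists_lift f (by
    intro i x
    have hcw : ∀ p, f (!i) cw p = (p.1 - CFs (!i) 2, p.2) := by
      intro p
      rw [hf, CFc_cw z hι, one_mul, CFY_cw]
    have hcw' : ∀ p, (f (!i) cw)⁻¹ p = (p.1 + CFs (!i) 2, p.2) := by
      intro p
      rw [Equiv.Perm.inv_eq_iff_eq, hcw, add_sub_cancel_right]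
    refine Equiv.ext fun p => ?_
    rw [Equiv.Perm.mul_apply, Equiv.Perm.mul_apply, hcw', hcw, hf, hf]
    beta_reduce
    rw [CFc_shift z hι, CFY_hA]
    refine Prod.ext ?_ rfl
    show p.1 + CFs (!i) 2 - CFs i (CFY x) - CFs (!i) 2 = p.1 - CFs i (CFY x)
    abel)
  exact ⟨Θ, fun i x p => by rw [hΘ, hf]⟩

end theta

/-- coset representatives in `G` -/
noncomputable def CFB (q : Bool → ℤ) : GG :=
  CFb false (decide (q true % 2 = 1)) * fin false (CFa (q false)) * cc true ^ (q true / 2)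

theorem CFB_zero : CFB 0 = 1 := by
  simp [CFB, CFb, CFa]

theorem CFB_eq {Φ : Type} [Group Φ] (z : Φ) (j : Φ →* GG)
    (hz : j z = fin false xb * fin true xb * (fin false xb)⁻¹ * (fin true xb)⁻¹)
    (i : Bool) (q : Bool → ℤ) : CFB q =
      (j (CFg z i q))⁻¹ * CFb i (decide (q (!i) % 2 = 1)) * fin i (CFa (q i)) *
        cc (!i) ^ (q (!i) / 2) := by
  cases i
  · have h1 : CFg z false q = 1 := if_neg (by simp)
    rw [h1, map_one, inv_one, one_mul]
    rfl
  · have hcomm : cc false ^ (q false / 2) * cc true ^ (q true / 2) =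
        cc true ^ (q true / 2) * cc false ^ (q false / 2) :=
      ((cc_comm false true).zpow_left _).zpow_right _
    have e1 : ∀ n : ℤ, fin false (cw ^ n) = cc false ^ n := fun n => map_zpow _ _ _
    have e2 : ∀ n : ℤ, fin true (cw ^ n) = cc true ^ n := fun n => map_zpow _ _ _
    unfold CFB CFb CFa CFg
    rw [map_mul, map_mul, e1, e2]
    simp only [Bool.not_true, Bool.not_false, true_and, decide_eq_true_eq]
    rcases Int.emod_two_eq_zero_or_one (q true) with h | h <;>
    rcases Int.emod_two_eq_zero_or_one (q false) with h' | h'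
    · have k1 : ¬ (q true % 2 = 1) := by omega
      have k2 : ¬ (q false % 2 = 1) := by omega
      simp only [k1, k2, if_false, false_and, map_one, inv_one, one_mul]
      exact hcomm
    · have k1 : ¬ (q true % 2 = 1) := by omega
      simp only [k1, h', if_true, if_false, false_and, map_one, inv_one, one_mul]
      rw [mul_assoc, hcomm, mul_assoc]
    · have k2 : ¬ (q false % 2 = 1) := by omega
      simp only [k2, h, if_true, if_false, and_false, map_one, inv_one, one_mul]
      rw [mul_assoc, hcomm, mul_assoc]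
    · simp only [h, h', if_true, and_self, hz]
      have e3 : fin true xb * (fin false xb * cc false ^ (q false / 2)) * cc true ^ (q true / 2) =
          fin true xb * fin false xb * (cc false ^ (q false / 2) * cc true ^ (q true / 2)) := by
        group
      rw [e3, hcomm]
      group

theorem commutator_free : IsFreeGroup ↥(commutator GG) := by
  classical
  obtain ⟨Φ, hG, hFree, ι, z, j, hι, hj, hz⟩ := CF_exists_Phi
  obtain ⟨Θ, hΘ⟩ := CF_exists_Theta z hι
  obtain ⟨χ, hχ⟩ := CF_exists_chi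
  -- the claim
  have claim : ∀ g : GG, ∀ q : Bool → ℤ, ∃ s : Φ,
      (∀ φ : Φ, Θ g (q, φ) = (q - Multiplicative.toAdd (χ g), s * φ)) ∧
      j s = CFB (q - Multiplicative.toAdd (χ g)) * g * (CFB q)⁻¹ := by
    intro g
    have hg : g ∈ Subgroup.closure (⋃ i, Set.range (fin i)) := by
      rw [closure_fin]; exact Subgroup.mem_top g
    induction hg using Subgroup.closure_induction with
    | mem x hx =>
      obtain ⟨_, ⟨i, rfl⟩, ⟨x, rfl⟩⟩ := hx
      intro q
      refine ⟨CFc ι z i x q, fun φ => ?_, ?_⟩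
      · rw [hΘ, hχ, toAdd_ofAdd]
      · rw [hχ, toAdd_ofAdd, CFB_eq z j hz i q, CFB_eq z j hz i (q - CFs i (CFY x)),
          CF_not_single, CF_self_single]
        unfold CFc
        rw [map_mul, map_mul, map_inv, hj _ _ _ (CFc_mem i x q _), map_mul, map_mul, map_inv,
          CF_fin_hA]
        group
    | one =>
      intro q
      refine ⟨1, fun φ => ?_, ?_⟩
      · rw [map_one, map_one, toAdd_one, sub_zero, one_mul]
        rfl
      · rw [map_one, map_one, toAdd_one, sub_zero, mul_one, mul_inv_cancel]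
    | mul x y _ _ hx hy =>
      intro q
      obtain ⟨s, hs1, hs2⟩ := hy q
      obtain ⟨s', hs1', hs2'⟩ := hx (q - Multiplicative.toAdd (χ y))
      have e : q - Multiplicative.toAdd (χ (x * y)) =
          q - Multiplicative.toAdd (χ y) - Multiplicative.toAdd (χ x) := by
        rw [map_mul, toAdd_mul]; abel
      refine ⟨s' * s, fun φ => ?_, ?_⟩
      · rw [e, map_mul, Equiv.Perm.mul_apply, hs1, hs1', mul_assoc]
      · rw [e, map_mul, hs2, hs2']
        group
    | inv x _ hx =>
      intro q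
      obtain ⟨s, hs1, hs2⟩ := hx (q + Multiplicative.toAdd (χ x))
      have e : q - Multiplicative.toAdd (χ x⁻¹) = q + Multiplicative.toAdd (χ x) := by
        rw [map_inv, toAdd_inv]; abel
      rw [add_sub_cancel_right] at hs2
      refine ⟨s⁻¹, fun φ => ?_, ?_⟩
      · rw [e, map_inv, Equiv.Perm.inv_eq_iff_eq, hs1, add_sub_cancel_right, mul_inv_cancel_left]
      · rw [e, map_inv, hs2]
        group
  have hker : ∀ g ∈ commutator GG, χ g = 1 := fun g hg =>
    Abelianization.commutator_subset_ker χ hg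
  choose s hs1 hs2 using claim
  let ρ : ↥(commutator GG) →* Φ :=
    { toFun := fun g => s (g : GG) 0
      map_one' := by
        have h := hs1 (1 : GG) 0 1
        rw [map_one, map_one, toAdd_one, sub_zero, mul_one] at h
        have h2 := congrArg Prod.snd h
        exact h2.symm
      map_mul' := by
        intro x y
        have hx := hs1 (x : GG) 0 (s (y : GG) 0)
        have hy := hs1 (y : GG) 0 1
        have hxy := hs1 ((x : GG) * (y : GG)) 0 1
        rw [hker _ x.2, toAdd_one, sub_zero] at hx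
        rw [hker _ y.2, toAdd_one, sub_zero, mul_one] at hy
        rw [map_mul Θ, Equiv.Perm.mul_apply, hy, hx, mul_one] at hxy
        exact (congrArg Prod.snd hxy).symm }
  have hinj : Function.Injective ρ := by
    intro x y hxy
    have h1 := hs2 (x : GG) 0
    have h2 := hs2 (y : GG) 0
    rw [hker _ x.2, toAdd_one, sub_zero, CFB_zero, one_mul, inv_one, mul_one] at h1
    rw [hker _ y.2, toAdd_one, sub_zero, CFB_zero, one_mul, inv_one, mul_one] at h2
    have h3 : s (x : GG) 0 = s (y : GG) 0 := hxy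
    apply Subtype.ext
    rw [← h1, ← h2, h3]
  exact IsFreeGroup.ofMulEquiv (MonoidHom.ofInjective hinj).symm

end Pool.Agent.H986PD
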