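import Pool.Agent.H986PD.PM

set_option autoImplicit false

namespace Pool.Agent.H986PD

open Pool.Agent.Helper158 Finsupp

/-- powers of the stable letter are not in the fibre -/
theorem cc_pow_not_mem (i : Bool) (n : ℕ) (hn : n ≠ 0) : cc (!i) ^ n ∉ (fin i).range := by
  rintro ⟨x, hx⟩
  rw [← vin_tV, ← map_pow] at hx
  have h1 : fV x = tV ^ n := vin_injective i hx
  have h2 := congrArg SemidirectProduct.rightHom h1
  rw [map_pow] at h2
  have h3 : SemidirectProduct.rightHom (fV x) = 1 := SemidirectProduct.rightHom_inl x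
  have h4 : SemidirectProduct.rightHom tV = Multiplicative.ofAdd (1 : ℤ) :=
    SemidirectProduct.rightHom_inr _
  rw [h3, h4, ← ofAdd_nsmul] at h2
  have h5 := congrArg Multiplicative.toAdd h2
  simp at h5
  exact hn (by omega)

theorem IM_inj (i : Bool) {m : M} (h : ρ (cc (!i)) m - m ∈ IM i) : m ∈ IM i := by
  classical
  have h0 : Finsupp.mapDomain (πF i) (ρ (cc (!i)) m) = Finsupp.mapDomain (πF i) m := by
    have h2 : Finsupp.mapDomain.addMonoidHom (πF i) (ρ (cc (!i)) m - m) = 0 := h
    rw [map_sub] at h2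
    exact sub_eq_zero.1 h2
  let τ : MulAction.orbitRel.Quotient (fin i).range GG →
      MulAction.orbitRel.Quotient (fin i).range GG :=
    Quotient.lift (fun x => πF i (cc (!i) * x)) (by
      rintro x y ⟨⟨_, ⟨v, rfl⟩⟩, rfl⟩
      show πF i (cc (!i) * (fin i v * y)) = πF i (cc (!i) * y)
      rw [πF_eq_iff]
      refine ⟨hA v, ?_⟩
      rw [← cc_conj]
      group)
  have hτ : ∀ x, τ (πF i x) = πF i (cc (!i) * x) := fun _ => rfl
  have hinj : Function.Injective τ := by
    intro a b hab
    obtain ⟨x, rfl⟩ : ∃ x, πF i x = a := Quotient.exists_rep a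
    obtain ⟨y, rfl⟩ : ∃ x, πF i x = b := Quotient.exists_rep b
    rw [hτ, hτ, πF_eq_iff] at hab
    obtain ⟨v, hv⟩ := hab
    rw [πF_eq_iff]
    refine ⟨hA⁻¹ v, ?_⟩
    have h1 := cc_conj i (hA⁻¹ v)
    rw [MulAut.apply_inv_self] at h1
    rw [← h1] at hv
    have h2 : cc (!i) * (fin i (hA⁻¹ v) * y) = cc (!i) * x := by
      rw [← hv]; group
    exact mul_left_cancel h2
  have hS : Finsupp.mapDomain τ (Finsupp.mapDomain (πF i) m) = Finsupp.mapDomain (πF i) m := by
    rw [← Finsupp.mapDomain_comp]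
    rw [permRep_def, ← Finsupp.mapDomain_comp] at h0
    exact h0
  set S := Finsupp.mapDomain (πF i) m with hSdef
  have hSτ : ∀ q, S (τ q) = S q := by
    intro q
    conv_lhs => rw [← hS]
    exact Finsupp.mapDomain_apply hinj S q
  have hSn : ∀ (n : ℕ) q, S (τ^[n] q) = S q := by
    intro n
    induction n with
    | zero => intro q; rfl
    | succ n ih =>
      intro q
      rw [Function.iterate_succ_apply, ih, hSτ]
  have hτn : ∀ (n : ℕ) x, τ^[n] (πF i x) = πF i (cc (!i) ^ n * x) := by
    intro n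
    induction n with
    | zero => intro x; rw [pow_zero, one_mul]; rfl
    | succ n ih =>
      intro x
      rw [Function.iterate_succ_apply, hτ, ih, pow_succ, mul_assoc]
  rw [mem_IM]
  show S = 0
  by_contra hne
  obtain ⟨q, hq⟩ := Finsupp.support_nonempty_iff.2 hne
  rw [Finsupp.mem_support_iff] at hq
  obtain ⟨x, rfl⟩ : ∃ x, πF i x = q := Quotient.exists_rep q
  have hlt : ∀ a b : ℕ, a < b → τ^[a] (πF i x) ≠ τ^[b] (πF i x) := by
    intro a b hab e
    obtain ⟨n, rfl⟩ := Nat.exists_eq_add_of_lt hab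
    rw [show a + n + 1 = a + (n + 1) by ring, Function.iterate_add_apply] at e
    have e2 := hinj.iterate a e
    rw [hτn, πF_eq_iff] at e2
    obtain ⟨v, hv⟩ := e2
    apply cc_pow_not_mem i (n + 1) (Nat.succ_ne_zero n)
    refine ⟨v⁻¹, ?_⟩
    rw [← mul_assoc, mul_eq_right] at hv
    rw [map_inv]
    exact inv_eq_of_mul_eq_one_right hv
  have hinj2 : Function.Injective (fun n : ℕ => τ^[n] (πF i x)) := by
    intro a b e
    rcases lt_trichotomy a b with h1 | h1 | h1
    · exact absurd e (hlt a b h1)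
    · exact h1
    · exact absurd e.symm (hlt b a h1)
  have hinf : (S.support : Set _).Infinite :=
    Set.infinite_of_injective_forall_mem hinj2 (fun n => by
      rw [Finset.mem_coe, Finsupp.mem_support_iff, hSn]
      exact hq)
  exact hinf S.support.finite_toSet

end Pool.Agent.H986PD
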