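import Pool.Agent.H986PD.Aff

set_option autoImplicit false

namespace Pool.Agent.H986PD


theorem inv_class_val_a (χ : F →* Multiplicative ℤ) :
    Multiplicative.toAdd (χ (gHom xa)) = -3 * Multiplicative.toAdd (χ xa)
      - 2 * Multiplicative.toAdd (χ xb) + 2 * Multiplicative.toAdd (χ xd) := by
  rw [gHom_xa]
  simp only [map_mul, map_inv, toAdd_mul, toAdd_inv]
  ring

theorem inv_class_val_b (χ : F →* Multiplicative ℤ) :
    Multiplicative.toAdd (χ (gHom xb)) = - Multiplicative.toAdd (χ xa)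
      - Multiplicative.toAdd (χ xb) + 2 * Multiplicative.toAdd (χ xd) := by
  rw [gHom_xb]
  simp only [map_mul, map_inv, toAdd_mul, toAdd_inv]
  ring

theorem inv_class_val_d (χ : F →* Multiplicative ℤ) :
    Multiplicative.toAdd (χ (gHom xd)) = Multiplicative.toAdd (χ xd) := by
  rw [gHom_xd]

theorem inv_class_gT (χ : F →* Multiplicative ℤ) (x : F) : χ (gT x) = χ (gHom x) := by
  rw [gT_apply, map_mul, map_mul, map_inv, mul_comm, mul_inv_cancel_left]

/-- the `h`-invariant classes are the multiples of `yF` -/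
theorem inv_class (ψ : F →* Multiplicative ℤ) (hψ : ∀ x, ψ (hA x) = ψ x) :
    ∃ n : ℤ, ∀ x, ψ x = yF x ^ n := by
  have h4 : ∀ x, ((((ψ.comp gHom).comp gHom).comp gHom).comp gHom) x = ψ x := by
    intro x
    have h1 : ψ (hA x) = ψ (gT (gT (gT (gT x)))) := by
      rw [hA_apply, map_mul, map_mul, map_inv, mul_comm, inv_mul_cancel_left]
    have h2 : ψ (gT (gT (gT (gT x)))) = (ψ.comp gHom) (gT (gT (gT x))) := inv_class_gT ψ _
    have h3 := inv_class_gT (ψ.comp gHom) (gT (gT x))
    have h4 := inv_class_gT ((ψ.comp gHom).comp gHom) (gT x)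
    have h5 := inv_class_gT (((ψ.comp gHom).comp gHom).comp gHom) x
    rw [← hψ x, h1, h2, h3]
    refine Eq.trans ?_ h4.symm
    exact h5.symm
  have ha := congrArg Multiplicative.toAdd (h4 xa)
  have hb := congrArg Multiplicative.toAdd (h4 xb)
  have a1 := inv_class_val_a ψ
  have b1 := inv_class_val_b ψ
  have d1 := inv_class_val_d ψ
  have a2 := inv_class_val_a (ψ.comp gHom)
  have b2 := inv_class_val_b (ψ.comp gHom)
  have d2 := inv_class_val_d (ψ.comp gHom)
  have a3 := inv_class_val_a ((ψ.comp gHom).comp gHom)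
  have b3 := inv_class_val_b ((ψ.comp gHom).comp gHom)
  have d3 := inv_class_val_d ((ψ.comp gHom).comp gHom)
  have a4 := inv_class_val_a (((ψ.comp gHom).comp gHom).comp gHom)
  have b4 := inv_class_val_b (((ψ.comp gHom).comp gHom).comp gHom)
  have d4 := inv_class_val_d (((ψ.comp gHom).comp gHom).comp gHom)
  have e2a : (((ψ.comp gHom).comp gHom)) xa = (ψ.comp gHom) (gHom xa) := rfl
  have e2b : (((ψ.comp gHom).comp gHom)) xb = (ψ.comp gHom) (gHom xb) := rfl
  have e2d : (((ψ.comp gHom).comp gHom)) xd = (ψ.comp gHom) (gHom xd) := rfl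
  have e3a : ((((ψ.comp gHom).comp gHom).comp gHom)) xa = ((ψ.comp gHom).comp gHom) (gHom xa) := rfl
  have e3b : ((((ψ.comp gHom).comp gHom).comp gHom)) xb = ((ψ.comp gHom).comp gHom) (gHom xb) := rfl
  have e3d : ((((ψ.comp gHom).comp gHom).comp gHom)) xd = ((ψ.comp gHom).comp gHom) (gHom xd) := rfl
  have e1a : (ψ.comp gHom) xa = ψ (gHom xa) := rfl
  have e1b : (ψ.comp gHom) xb = ψ (gHom xb) := rfl
  have e1d : (ψ.comp gHom) xd = ψ (gHom xd) := rfl
  have e4a : (((((ψ.comp gHom).comp gHom).comp gHom)).comp gHom) xa =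
    (((ψ.comp gHom).comp gHom).comp gHom) (gHom xa) := rfl
  have e4b : (((((ψ.comp gHom).comp gHom).comp gHom)).comp gHom) xb =
    (((ψ.comp gHom).comp gHom).comp gHom) (gHom xb) := rfl
  rw [e4a, a4, e3a, e3b, e3d, a3, b3, d3, e2a, e2b, e2d, a2, b2, d2, e1a, e1b, e1d, a1, b1,
    d1] at ha
  rw [e4b, b4, e3a, e3b, e3d, a3, b3, d3, e2a, e2b, e2d, a2, b2, d2, e1a, e1b, e1d, a1, b1,
    d1] at hb
  have hp : Multiplicative.toAdd (ψ xa) = 0 := by omega
  have hq : Multiplicative.toAdd (ψ xb) = Multiplicative.toAdd (ψ xd) := by omega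
  refine ⟨Multiplicative.toAdd (ψ xd), ?_⟩
  have hfin : ψ = (zpowGroupHom (Multiplicative.toAdd (ψ xd))).comp yF := by
    apply F_ext
    · have h1 : yF xa = 1 := by simp [yF, xa]
      rw [MonoidHom.comp_apply, h1, map_one]
      exact hp
    · have h1 : yF xb = Multiplicative.ofAdd 1 := by simp [yF, xb]
      rw [MonoidHom.comp_apply, h1, zpowGroupHom_apply, ← ofAdd_zsmul, smul_eq_mul, mul_one, ← hq]
      rfl
    · have h1 : yF xd = Multiplicative.ofAdd 1 := by simp [yF, xd]
      rw [MonoidHom.comp_apply, h1, zpowGroupHom_apply, ← ofAdd_zsmul, smul_eq_mul, mul_one]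
      rfl
  intro x
  exact DFunLike.congr_fun hfin x

end Pool.Agent.H986PD
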