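import Pool.Agent.H986PD.RG
import Pool.Agent.H986PD.Fox

set_option autoImplicit false

namespace Pool.Agent.H986PD

open Pool.Agent.Helper158 Finsupp

/-! To prove: -/

theorem Lmap_injective (i : Bool) : Function.Injective (Lmap i) := by
  rw [injective_iff_map_eq_zero]
  intro r hr
  rw [Lmap_apply] at hr
  have h1 : ∑ k, (ρ (fin i (FreeGroup.of k)⁻¹) (eI (r k)) - eI (r k)) = 0 := by
    have h2 := congrArg eI hr
    rw [map_sum, map_zero] at h2
    rw [← h2]
    refine Finset.sum_congr rfl fun k _ => ?_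
    rw [lv, mul_lv]
  obtain ⟨α, hα⟩ : ∃ α : F →* F, ∀ k, α (FreeGroup.of k) = (FreeGroup.of k)⁻¹ :=
    ⟨FreeGroup.lift (fun k => (FreeGroup.of k)⁻¹), fun k => by simp⟩
  have hαα : ∀ x, α (α x) = x := by
    intro x
    have h3 : α.comp α = MonoidHom.id F := by
      apply FreeGroup.ext_hom
      intro k
      rw [MonoidHom.comp_apply, hα, map_inv, hα, inv_inv]
      rfl
    exact DFunLike.congr_fun h3 x
  have hinj : Function.Injective α := Function.LeftInverse.injective hαα
  have h4 := fox_indep i α hinj (fun k => eI (r k)) (by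
    simp only [hα]
    exact h1)
  funext k
  have h5 := congrFun h4 k
  exact (map_eq_zero_iff eI eI.injective).mp h5

/-- `L i` is free of rank 3 -/
noncomputable def Leq (i : Bool) : (Fin 3 → R) ≃ₗ[R] L i :=
  LinearEquiv.ofInjective (Lmap i) (Lmap_injective i)

instance L_finite (i : Bool) : Module.Finite R (L i) := Module.Finite.equiv (Leq i)

instance L_projective (i : Bool) : Module.Projective R (L i) := Module.Projective.of_equiv (Leq i)

theorem Leq_single (i : Bool) (k : Fin 3) :
    Leq i (Pi.single k 1) = ⟨lv i k, by simpa [lv] using mul_sub_mem_L i 1 (FreeGroup.of k)⟩ := by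
  apply Subtype.ext
  change Lmap i (Pi.single k 1) = lv i k
  rw [Lmap, Fintype.linearCombination_apply_single, one_smul]

/-- two linear maps on `L i` agreeing on the `x_k - 1` are equal -/
theorem L_ext (i : Bool) {N : Type*} [AddCommGroup N] [Module R N] {f g : L i →ₗ[R] N}
    (h : ∀ k, f ⟨lv i k, by simpa [lv] using mul_sub_mem_L i 1 (FreeGroup.of k)⟩
      = g ⟨lv i k, by simpa [lv] using mul_sub_mem_L i 1 (FreeGroup.of k)⟩) : f = g := by
  have h1 : f.comp (Leq i : (Fin 3 → R) →ₗ[R] L i) = g.comp (Leq i : (Fin 3 → R) →ₗ[R] L i) := by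
    apply LinearMap.pi_ext'
    intro k
    apply LinearMap.ext_ring
    change f (Leq i (Pi.single k 1)) = g (Leq i (Pi.single k 1))
    rw [Leq_single]
    exact h k
  apply LinearMap.ext
  intro x
  have h2 := LinearMap.congr_fun h1 ((Leq i).symm x)
  simpa using h2

/-- prescribe a linear map on the `x_k - 1` -/
theorem L_lift (i : Bool) {N : Type*} [AddCommGroup N] [Module R N] (n : Fin 3 → N) :
    ∃ f : L i →ₗ[R] N,
      ∀ k, f ⟨lv i k, by simpa [lv] using mul_sub_mem_L i 1 (FreeGroup.of k)⟩ = n k := by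
  refine ⟨(Fintype.linearCombination R n).comp ((Leq i).symm : L i →ₗ[R] (Fin 3 → R)), ?_⟩
  intro k
  rw [← Leq_single]
  change Fintype.linearCombination R n ((Leq i).symm (Leq i (Pi.single k 1))) = n k
  rw [LinearEquiv.symm_apply_apply, Fintype.linearCombination_apply_single, one_smul]

end Pool.Agent.H986PD
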