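import Mathlib

set_option autoImplicit false

namespace Pool.Agent.H986PD

open LaurentPolynomial

theorem no_div_nat (n n' : ℕ) (hn : n ≠ 0) (h : n' ≤ n) (P : Polynomial ℤ) (hP : P.Monic)
    (q : LaurentPolynomial ℤ)
    (hq : Polynomial.aeval (T 2 : LaurentPolynomial ℤ) P * (1 - T (4 * (n : ℤ))) =
      (T (n' : ℤ) + T (-(n' : ℤ)) + 2 * (T (n : ℤ) + T (-(n : ℤ)))) * q) : False := by
  obtain ⟨k, Q, hQ⟩ := LaurentPolynomial.exists_T_pow q
  have h1 : Polynomial.toLaurent (P.comp (Polynomial.X ^ 2)) =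
      Polynomial.aeval (T 2 : LaurentPolynomial ℤ) P := by
    have h2 : P.comp (Polynomial.X ^ 2) = Polynomial.aeval (Polynomial.X ^ 2) P := by
      rw [Polynomial.comp_eq_aeval]
    rw [h2, ← Polynomial.toLaurentAlg_apply, ← Polynomial.aeval_algHom_apply,
      Polynomial.toLaurentAlg_apply, Polynomial.toLaurent_X_pow]
    norm_num
  set A : Polynomial ℤ := Polynomial.X ^ (n + n') + Polynomial.X ^ (n - n') +
    2 * (Polynomial.X ^ (2 * n) + 1) with hA
  have hAL : Polynomial.toLaurent A =
      (T (n' : ℤ) + T (-(n' : ℤ)) + 2 * (T (n : ℤ) + T (-(n : ℤ)))) * T (n : ℤ) := by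
    rw [hA]
    simp only [map_add, map_mul, Polynomial.toLaurent_X_pow, map_ofNat, map_one, add_mul,
      mul_assoc, ← T_add]
    have e1 : ((n - n' : ℕ) : ℤ) = -(n' : ℤ) + n := by omega
    have e2 : ((n + n' : ℕ) : ℤ) = (n' : ℤ) + n := by omega
    have e3 : ((2 * n : ℕ) : ℤ) = (n : ℤ) + n := by omega
    rw [e1, e2, e3, neg_add_cancel, T_zero]
  have hpoly : P.comp (Polynomial.X ^ 2) * (1 - Polynomial.X ^ (4 * n)) *
      Polynomial.X ^ (n + k) = A * Q := by
    apply Polynomial.toLaurent_injective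
    simp only [map_mul, map_sub, map_one, Polynomial.toLaurent_X_pow]
    rw [h1, hAL, hQ]
    have e1 : ((4 * n : ℕ) : ℤ) = 4 * (n : ℤ) := by omega
    have e2 : ((n + k : ℕ) : ℤ) = (n : ℤ) + k := by omega
    rw [e1, e2, hq, T_add]
    ring
  have hlead : (A * Q).leadingCoeff = -1 := by
    rw [← hpoly]
    have e1 : P.comp (Polynomial.X ^ 2) * (1 - Polynomial.X ^ (4 * n)) *
      Polynomial.X ^ (n + k) = -(P.comp (Polynomial.X ^ 2) *
        (Polynomial.X ^ (4 * n) - Polynomial.C 1) * Polynomial.X ^ (n + k)) := by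
      rw [Polynomial.C_1]; ring
    rw [e1, Polynomial.leadingCoeff_neg]
    have m1 : (P.comp (Polynomial.X ^ 2)).Monic := by
      apply hP.comp (Polynomial.monic_X_pow 2)
      rw [Polynomial.natDegree_X_pow]; norm_num
    have m2 : (Polynomial.X ^ (4 * n) - Polynomial.C (1 : ℤ)).Monic :=
      Polynomial.monic_X_pow_sub_C _ (by omega)
    have m3 := (m1.mul m2).mul (Polynomial.monic_X_pow (R := ℤ) (n + k))
    rw [m3.leadingCoeff]
  have hAc : A.coeff (2 * n) = 2 ∨ A.coeff (2 * n) = 3 := by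
    rw [hA]
    have e0 : (2 : Polynomial ℤ) = Polynomial.C 2 := by simp
    simp only [Polynomial.coeff_add, Polynomial.coeff_X_pow, e0, Polynomial.coeff_C_mul,
      Polynomial.coeff_one]
    rcases h.lt_or_eq with h' | h'
    · left
      rw [if_neg (by omega), if_neg (by omega), if_pos True.intro, if_neg (by omega)]; norm_num
    · right
      rw [if_pos (by omega), if_neg (by omega), if_pos True.intro, if_neg (by omega)]; norm_num
  have hAd : A.natDegree ≤ 2 * n := by
    rw [hA]
    refine Polynomial.natDegree_add_le_of_degree_le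
      (Polynomial.natDegree_add_le_of_degree_le ?_ ?_) ?_
    · rw [Polynomial.natDegree_X_pow]; omega
    · rw [Polynomial.natDegree_X_pow]; omega
    · have e0 : (2 : Polynomial ℤ) = Polynomial.C 2 := by simp
      rw [e0]
      refine (Polynomial.natDegree_C_mul_le _ _).trans ?_
      refine Polynomial.natDegree_add_le_of_degree_le ?_ ?_
      · rw [Polynomial.natDegree_X_pow]
      · simp
  have hAd' : A.natDegree = 2 * n := by
    apply le_antisymm hAd
    apply Polynomial.le_natDegree_of_ne_zero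
    rcases hAc with h' | h' <;> rw [h'] <;> norm_num
  rw [Polynomial.leadingCoeff_mul] at hlead
  have h3 : A.leadingCoeff = A.coeff (2 * n) := by
    rw [Polynomial.leadingCoeff, hAd']
  rw [h3] at hlead
  rcases hAc with h' | h' <;> rw [h'] at hlead <;> omega

/-- leading coefficient argument: the top coefficient of the right-hand factor is `2` or `3` -/
theorem no_div (n n' : ℤ) (hn : n ≠ 0) (h : |n'| ≤ |n|) (P : Polynomial ℤ) (hP : P.Monic)
    (q : LaurentPolynomial ℤ)
    (hq : Polynomial.aeval (T 2 : LaurentPolynomial ℤ) P * (1 - T (4 * n)) =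
      (T n' + T (-n') + 2 * (T n + T (-n))) * q) : False := by
  -- reduce to nonnegative `n'`
  wlog hn' : 0 ≤ n' generalizing n'
  · refine this (-n') (by rwa [abs_neg]) ?_ (by linarith)
    rw [neg_neg, hq]; ring
  wlog hn0 : 0 < n generalizing n q
  · have hneg : n < 0 := lt_of_le_of_ne (not_lt.1 hn0) hn
    refine this (-n) (by omega) (-(T (-(4 * n)) * q)) (by rwa [abs_neg]) ?_ (by omega)
    have e1 : (1 : LaurentPolynomial ℤ) - T (4 * -n) = -(T (-(4 * n)) * (1 - T (4 * n))) := by
      rw [mul_sub, ← T_add, neg_add_cancel, T_zero, mul_one, mul_neg]; ring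
    rw [e1, neg_neg]
    linear_combination (-T (-(4 * n))) * hq
  rw [abs_of_nonneg hn', abs_of_pos hn0] at h
  obtain ⟨m, rfl⟩ := Int.eq_ofNat_of_zero_le hn0.le
  obtain ⟨m', rfl⟩ := Int.eq_ofNat_of_zero_le hn'
  exact no_div_nat m m' (by omega) (by omega) P hP q hq

end Pool.Agent.H986PD
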