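import Pool.Agent.H986PD.Inv
import Pool.Agent.H986PD.Laur

set_option autoImplicit false

open LaurentPolynomial

namespace Pool.Agent.H986PD

/-! To prove: -/

theorem hom_apply {B : Type*} [CommRing B] (z : Bˣ) (v : B) : hom z v = z * v := rfl

/-- homotheties as a homomorphism -/
def homM (B : Type*) [CommRing B] : Bˣ →* Equiv.Perm B where
  toFun := hom
  map_one' := by ext v; simp [hom_apply]
  map_mul' a b := by
    ext v
    rw [Equiv.Perm.mul_apply, hom_apply, hom_apply, hom_apply, Units.val_mul, mul_assoc]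

theorem hom_eqM {B : Type*} [CommRing B] (z : Bˣ) : hom z = homM B z := rfl

theorem exists_Theta {B : Type*} [CommRing B] (i : Bool) (u : Bˣ) (n m : ℤ)
    (hu : ((u ^ (2 * n) : Bˣ) : B) * ((u ^ (m - n) : Bˣ) : B) ^ 2 +
      2 * (1 + ((u ^ (2 * n) : Bˣ) : B)) * ((u ^ (m - n) : Bˣ) : B) + 1 = 0) :
    ∃ Θ : GG →* Equiv.Perm B,
      (∀ x v, Θ (fin i x) v = ((u ^ (2 * (n * Multiplicative.toAdd (yF x))) : Bˣ) : B) * v
        + Θ (fin i x) 0) ∧
      (∀ x v, Θ (fin (!i) x) v = ((u ^ (2 * (m * Multiplicative.toAdd (yF x))) : Bˣ) : B) * v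
        + Θ (fin (!i) x) 0) ∧
      Θ (fin i (xb * xd * xb⁻¹ * xd⁻¹)) 0 =
        ((u ^ (2 * n) : Bˣ) : B) ^ 3 - ((u ^ (2 * n) : Bˣ) : B) := by
  obtain ⟨f, hf1, hf2, hf3, hf4⟩ := aff_rep (u ^ (2 * n)) (u ^ (m - n)) hu
  let g : F →* Equiv.Perm B :=
    (homM B).comp ((zpowersHom Bˣ (u ^ (2 * m))).comp yF)
  have hg : ∀ x, g x = homM B ((u ^ (2 * m)) ^ (Multiplicative.toAdd (yF x))) := fun x => rfl
  have hgT : ∀ x, homM B (u ^ (m - n)) * f x * (homM B (u ^ (m - n)))⁻¹ = f (gT x) := hf2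
  have hcw : f cw = homM B ((u ^ (2 * n)) ^ 2) := hf3
  have hgcw : g cw = homM B (u ^ (4 * m)) := by
    rw [hg, yF_cw, toAdd_ofAdd, ← zpow_mul]
    congr 2
    ring
  have key : ∀ j x, (if j = i then f else g) (hA x) =
      (if (!j) = i then f else g) cw * (if j = i then f else g) x *
        ((if (!j) = i then f else g) cw)⁻¹ := by
    intro j x
    by_cases hj : j = i
    · have hj' : ¬ ((!j) = i) := by
        rw [hj]; cases i <;> simp
      rw [if_pos hj, if_neg hj', hgcw]
      rw [hA_apply, map_mul, map_mul, map_inv, ← hgT, ← hgT, ← hgT, ← hgT, hcw]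
      have e : homM B (u ^ (4 * m)) = homM B ((u ^ (2 * n)) ^ 2) * homM B (u ^ (m - n)) *
          homM B (u ^ (m - n)) * homM B (u ^ (m - n)) * homM B (u ^ (m - n)) := by
        rw [← map_mul, ← map_mul, ← map_mul, ← map_mul]
        congr 1
        rw [← zpow_natCast, ← zpow_mul, ← zpow_add, ← zpow_add, ← zpow_add, ← zpow_add]
        congr 1
        push_cast
        ring
      rw [e]
      group
    · have hj' : (!j) = i := by
        cases i <;> cases j
        · exact absurd rfl hj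
        · rfl
        · rfl
        · exact absurd rfl hj
      rw [if_neg hj, if_pos hj', hg, hg, yF_hA, hcw, ← map_inv, ← map_mul, ← map_mul]
      congr 1
      rw [mul_comm ((u ^ (2 * n)) ^ 2), mul_inv_cancel_right]
  obtain ⟨Θ, hΘ⟩ := exists_lift (fun j => if j = i then f else g) (fun j x => (key j x).symm)
  have h1 : ∀ x, Θ (fin i x) = f x := by
    intro x; rw [hΘ]; simp
  have h2 : ∀ x, Θ (fin (!i) x) = g x := by
    intro x; rw [hΘ]
    have : ¬ ((!i) = i) := by cases i <;> simp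
    simp [this]
  refine ⟨Θ, ?_, ?_, ?_⟩
  · intro x v
    rw [h1, hf1 x v, ← zpow_mul]
    congr 4
    ring
  · intro x v
    rw [h2, hg, ← zpow_mul]
    change _ * v = _ + _ * (0 : B)
    rw [mul_zero, add_zero]
    congr 3
    ring
  · rw [h1, hf4]

theorem aff_all {B : Type*} [CommRing B] (χ : GG →* Multiplicative ℤ) (Θ : GG →* Equiv.Perm B)
    (u : Bˣ) (h : ∀ i x v, Θ (fin i x) v =
      ((u ^ (2 * Multiplicative.toAdd (χ (fin i x))) : Bˣ) : B) * v + Θ (fin i x) 0) (g : GG) :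
    ∀ v, Θ g v = ((u ^ (2 * Multiplicative.toAdd (χ g)) : Bˣ) : B) * v + Θ g 0 := by
  have hg : g ∈ Subgroup.closure (⋃ i, Set.range (fin i)) := by
    rw [closure_fin]; exact Subgroup.mem_top g
  induction hg using Subgroup.closure_induction with
  | mem x hx =>
    obtain ⟨i, y, rfl⟩ := Set.mem_iUnion.1 hx
    exact h i y
  | one => intro v; simp
  | mul x y _ _ hx hy =>
    intro v
    rw [map_mul, Equiv.Perm.mul_apply, Equiv.Perm.mul_apply, hx, hy, hx (Θ y 0), map_mul, toAdd_mul,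
      mul_add 2, zpow_add, Units.val_mul]
    ring
  | inv x _ hx =>
    intro v
    have h1 : ∀ v, Θ x⁻¹ v =
        ((u ^ (2 * Multiplicative.toAdd (χ x⁻¹)) : Bˣ) : B) * (v - Θ x 0) := by
      intro v
      rw [map_inv]
      apply (Θ x).injective
      rw [show (Θ x) ((Θ x)⁻¹ v) = v from (Θ x).apply_symm_apply v, hx, map_inv, toAdd_inv, mul_neg, zpow_neg,
        Units.mul_inv_cancel_left]
      ring
    rw [h1, h1]
    ring

theorem aeval_restrict {B : Type*} [CommRing B] (t : B) (W : Submodule ℤ B)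
    (f : W →ₗ[ℤ] W) (hf : ∀ w, ((f w : W) : B) = t * w) (P : Polynomial ℤ) (w : W) :
    ((Polynomial.aeval f P w : W) : B) = Polynomial.aeval t P * w := by
  induction P using Polynomial.induction_on' with
  | add p q hp hq =>
    rw [map_add, map_add, LinearMap.add_apply, Submodule.coe_add, hp, hq, add_mul]
  | monomial k a =>
    rw [Polynomial.aeval_monomial, Polynomial.aeval_monomial]
    have hk : ∀ k : ℕ, (((f ^ k) w : W) : B) = t ^ k * w := by
      intro k
      induction k with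
      | zero => simp
      | succ k ih =>
        rw [pow_succ', Module.End.mul_apply, hf, ih, pow_succ', mul_assoc]
    rw [Module.End.mul_apply, Module.algebraMap_end_apply, Submodule.coe_smul, hk]
    simp [mul_assoc]

theorem exists_annih {B : Type*} [CommRing B] (χ : GG →* Multiplicative ℤ)
    (Θ : GG →* Equiv.Perm B) (u : Bˣ)
    (h : ∀ g v, Θ g v = ((u ^ (2 * Multiplicative.toAdd (χ g)) : Bˣ) : B) * v + Θ g 0)
    (hχ : Function.Surjective χ) (hfg : Subgroup.FG χ.ker) :
    ∃ P : Polynomial ℤ, P.Monic ∧ ∀ k, χ k = 1 → Polynomial.aeval ((u : B) ^ 2) P * Θ k 0 = 0 := by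
  have hK : ∀ k, χ k = 1 → ∀ v, Θ k v = v + Θ k 0 := by
    intro k hk v
    rw [h, hk]; simp
  let D : Additive χ.ker →+ B :=
    { toFun := fun k => Θ (Additive.toMul k : χ.ker) 0
      map_zero' := by simp
      map_add' := fun a b => by
        rw [toMul_add, Subgroup.coe_mul, map_mul, Equiv.Perm.mul_apply,
          hK _ (Additive.toMul a).2, add_comm] }
  let W : AddSubgroup B := D.range
  have hWm : ∀ w, w ∈ W ↔ ∃ k, χ k = 1 ∧ Θ k 0 = w := by
    intro w
    constructor
    · rintro ⟨k, hk⟩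
      exact ⟨(Additive.toMul k : χ.ker), (Additive.toMul k).2, hk⟩
    · rintro ⟨k, hk, rfl⟩
      exact ⟨Additive.ofMul ⟨k, hk⟩, rfl⟩
  have h1 : Group.FG χ.ker := (Group.fg_iff_subgroup_fg _).2 hfg
  have h2 : AddGroup.FG (Additive χ.ker) := inferInstance
  have h3 : AddGroup.FG W := AddGroup.fg_range D
  let W' : Submodule ℤ B := AddSubgroup.toIntSubmodule W
  have h4 : AddGroup.FG W' := h3
  have h5 : Module.Finite ℤ W' := Module.Finite.iff_addGroup_fg.2 h4
  obtain ⟨g, hg⟩ := hχ (Multiplicative.ofAdd 1)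
  have hst : ∀ w ∈ W', (u : B) ^ 2 * w ∈ W' := by
    intro w hw
    obtain ⟨k, hk, rfl⟩ := (hWm w).1 hw
    refine (hWm _).2 ⟨g * k * g⁻¹, ?_, ?_⟩
    · rw [map_mul, map_mul, map_inv, hk]; simp
    · have h0 : Θ g (Θ g⁻¹ 0) = 0 := by
        rw [map_inv]; exact (Θ g).apply_symm_apply 0
      rw [map_mul, map_mul, Equiv.Perm.mul_apply, Equiv.Perm.mul_apply, hK k hk, h g, hg]
      rw [h g, hg] at h0
      simp only [toAdd_ofAdd, mul_one] at h0 ⊢
      have e : ((u ^ (2 : ℤ) : Bˣ) : B) = (u : B) ^ 2 := by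
        rw [← Units.val_pow_eq_pow_val]; norm_cast
      rw [e] at h0 ⊢
      linear_combination h0
  let f : W' →ₗ[ℤ] W' := (LinearMap.mulLeft ℤ ((u : B) ^ 2)).restrict hst
  obtain ⟨P, hP, hP0⟩ := LinearMap.exists_monic_and_aeval_eq_zero ℤ f
  refine ⟨P, hP, fun k hk => ?_⟩
  have hmem : Θ k 0 ∈ W' := (hWm _).2 ⟨k, hk, rfl⟩
  have := aeval_restrict ((u : B) ^ 2) W' f (fun w => rfl) P ⟨Θ k 0, hmem⟩
  rw [hP0] at this
  exact this.symm

theorem aeval_hom {A B : Type*} [CommRing A] [CommRing B] [Algebra ℤ A]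
    (π : A →+* B) (P : Polynomial ℤ) (t : A) :
    Polynomial.aeval (π t) P = π (Polynomial.aeval t P) := by
  rw [Polynomial.aeval_def, Polynomial.aeval_def, Polynomial.hom_eval₂]
  congr 1
  exact Subsingleton.elim _ _

theorem not_fg_aux (χ : GG →* Multiplicative ℤ) (hχ : Function.Surjective χ) (i : Bool)
    (n m : ℤ) (hn : ∀ x, χ (fin i x) = yF x ^ n) (hm : ∀ x, χ (fin (!i) x) = yF x ^ m)
    (hn0 : n ≠ 0) (hmn : |m| ≤ |n|) : ¬ Subgroup.FG χ.ker := by
  intro hfg
  let A := LaurentPolynomial ℤ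
  let δ : A := T m + T (-m) + 2 * (T n + T (-n))
  let I : Ideal A := Ideal.span {δ}
  let B := A ⧸ I
  let π : A →+* B := Ideal.Quotient.mk I
  let uA : Aˣ := ⟨T 1, T (-1), by rw [← T_add]; simp, by rw [← T_add]; simp⟩
  have huA : ∀ k : ℤ, ((uA ^ k : Aˣ) : A) = T k := by
    intro k
    induction k using Int.induction_on with
    | zero => simp
    | succ k ih => rw [zpow_add_one, Units.val_mul, ih, T_add]
    | pred k ih =>
      rw [zpow_sub_one, Units.val_mul, ih, sub_eq_add_neg, T_add]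
      rfl
  let u : Bˣ := Units.map π.toMonoidHom uA
  have hu : ∀ k : ℤ, ((u ^ k : Bˣ) : B) = π (T k) := by
    intro k
    rw [← huA k]
    change ((Units.map π.toMonoidHom uA ^ k : Bˣ) : B) = _
    rw [← map_zpow]
    rfl
  have hδ : π δ = 0 := Ideal.Quotient.eq_zero_iff_mem.2 (Ideal.subset_span rfl)
  have hrel : ((u ^ (2 * n) : Bˣ) : B) * ((u ^ (m - n) : Bˣ) : B) ^ 2 +
      2 * (1 + ((u ^ (2 * n) : Bˣ) : B)) * ((u ^ (m - n) : Bˣ) : B) + 1 = 0 := by
    rw [hu, hu]
    have e : π (T m * δ) = 0 := by rw [map_mul, hδ, mul_zero]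
    rw [← e]
    have : (T m * δ : A) = T (2 * n) * (T (m - n)) ^ 2 + 2 * (1 + T (2 * n)) * T (m - n) + 1 := by
      simp only [δ]
      have e1 : (T (2 * n) * (T (m - n)) ^ 2 : A) = T m * T m := by
        rw [T_pow, ← T_add, ← T_add]; congr 1; push_cast; ring
      have e2 : (T (2 * n) * T (m - n) : A) = T m * T n := by
        rw [← T_add, ← T_add]; congr 1; ring
      have e3 : (T m * T (-m) : A) = 1 := by
        rw [← T_add]; simp
      have e4 : (T (m - n) : A) = T m * T (-n) := by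
        rw [← T_add]; congr 1
      linear_combination -e1 - 2 * e2 + e3 - 2 * e4
    rw [this]
    simp only [map_add, map_mul, map_pow, map_one, map_ofNat]
  obtain ⟨Θ, h1, h2, h3⟩ := exists_Theta i u n m hrel
  have hall : ∀ j x v, Θ (fin j x) v =
      ((u ^ (2 * Multiplicative.toAdd (χ (fin j x))) : Bˣ) : B) * v + Θ (fin j x) 0 := by
    intro j x v
    by_cases hj : j = i
    · subst hj
      rw [hn, h1, toAdd_zpow, smul_eq_mul]
    · have hj' : j = !i := by
        cases i <;> cases j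
        · exact absurd rfl hj
        · rfl
        · rfl
        · exact absurd rfl hj
      subst hj'
      rw [hm, h2, toAdd_zpow, smul_eq_mul]
  obtain ⟨P, hP, hP0⟩ := exists_annih χ Θ u (aff_all χ Θ u hall) hχ hfg
  have hk : χ (fin i (xb * xd * xb⁻¹ * xd⁻¹)) = 1 := by
    simp only [map_mul, map_inv]
    rw [mul_right_comm (χ (fin i xb)), mul_inv_cancel, one_mul, mul_inv_cancel]
  have hz := hP0 _ hk
  rw [h3, hu] at hz
  have hu2 : ((u : B) ^ 2) = π (T 2) := by
    have := hu 2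
    rw [← this]
    norm_cast
  rw [hu2] at hz
  rw [aeval_hom π P (T 2 : A)] at hz
  have hz' : π (Polynomial.aeval (T 2 : A) P * (T (2 * n) ^ 3 - T (2 * n))) = 0 := by
    rw [map_mul, map_sub, map_pow]; exact hz
  have hmem := Ideal.mem_span_singleton.1 (Ideal.Quotient.eq_zero_iff_mem.1 hz')
  obtain ⟨q, hq⟩ := hmem
  refine no_div n m hn0 hmn P hP (-(T (-(2 * n)) * q)) ?_
  have e1 : (T (2 * n) ^ 3 : A) * T (-(2 * n)) = T (4 * n) := by
    rw [T_pow, ← T_add]; congr 1; push_cast; ring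
  have e2 : (T (2 * n) : A) * T (-(2 * n)) = 1 := by
    rw [← T_add]; simp
  simp only [δ] at hq
  linear_combination (-(T (-(2 * n)))) * hq + Polynomial.aeval (T 2 : A) P * (e1 - e2)

theorem not_fg (χ : GG →* Multiplicative ℤ) (hχ : Function.Surjective χ) :
    ¬ Subgroup.FG χ.ker := by
  have hinv : ∀ i x, (χ.comp (fin i)) (hA x) = (χ.comp (fin i)) x := by
    intro i x
    rw [MonoidHom.comp_apply, ← cc_conj, map_mul, map_mul, map_inv, mul_comm (χ (cc (!i))),
      mul_inv_cancel_right]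
    rfl
  choose n hn using fun i => inv_class (χ.comp (fin i)) (hinv i)
  have hn' : ∀ i x, χ (fin i x) = yF x ^ n i := hn
  have hne : ∃ i, n i ≠ 0 := by
    by_contra hc
    push Not at hc
    have : χ = 1 := by
      apply GG_ext
      intro i x
      rw [hn', hc i, zpow_zero]; rfl
    obtain ⟨g, hg⟩ := hχ (Multiplicative.ofAdd 1)
    rw [this] at hg
    exact absurd (congrArg Multiplicative.toAdd hg) (by simp)
  obtain ⟨i, hi, hi'⟩ : ∃ i, n i ≠ 0 ∧ |n (!i)| ≤ |n i| := by
    rcases le_total |n true| |n false| with h | h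
    · refine ⟨false, ?_, h⟩
      rintro h0
      obtain ⟨j, hj⟩ := hne
      cases j
      · exact hj h0
      · rw [h0, abs_zero] at h
        exact hj (abs_nonpos_iff.1 h)
    · refine ⟨true, ?_, h⟩
      rintro h0
      obtain ⟨j, hj⟩ := hne
      cases j
      · rw [h0, abs_zero] at h
        exact hj (abs_nonpos_iff.1 h)
      · exact hj h0
  exact not_fg_aux χ hχ i (n i) (n (!i)) (hn' i) (hn' (!i)) hi hi'

end Pool.Agent.H986PD
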