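import Pool.Agent.H986PD.Defs

/-! Permutation module lemmas for `G`. -/

namespace Pool.Agent.H986PD

open Monoid Monoid.PushoutI Pool.Agent.Helper158 Finsupp

/-- the permutation module -/
abbrev M := GG →₀ ℤ

/-- left translation -/
noncomputable abbrev ρ : GG →* Module.End ℤ M := permRep GG GG

/-- orbit maps of the vertex groups acting by left multiplication -/
noncomputable def πV (i : Bool) (g : GG) : MulAction.orbitRel.Quotient (vin i).range GG := Quotient.mk _ g

/-- orbit map of the edge group acting by left multiplication -/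
noncomputable def πE (g : GG) : MulAction.orbitRel.Quotient ein.range GG := Quotient.mk _ g

/-- orbit maps of the fibre groups acting by left multiplication -/
noncomputable def πF (i : Bool) (g : GG) : MulAction.orbitRel.Quotient (fin i).range GG := Quotient.mk _ g

theorem πV_eq_iff (i : Bool) (x y : GG) : πV i x = πV i y ↔ ∃ v, vin i v * y = x := by
  unfold πV
  rw [Quotient.eq]
  constructor
  · rintro ⟨⟨_, ⟨v, rfl⟩⟩, h⟩; exact ⟨v, h⟩
  · rintro ⟨v, h⟩; exact ⟨⟨_, ⟨v, rfl⟩⟩, h⟩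

theorem πF_eq_iff (i : Bool) (x y : GG) : πF i x = πF i y ↔ ∃ v, fin i v * y = x := by
  unfold πF
  rw [Quotient.eq]
  constructor
  · rintro ⟨⟨_, ⟨v, rfl⟩⟩, h⟩; exact ⟨v, h⟩
  · rintro ⟨v, h⟩; exact ⟨⟨_, ⟨v, rfl⟩⟩, h⟩

theorem πE_eq_iff (x y : GG) : πE x = πE y ↔ ∃ e, ein e * y = x := by
  unfold πE
  rw [Quotient.eq]
  constructor
  · rintro ⟨⟨_, ⟨v, rfl⟩⟩, h⟩; exact ⟨v, h⟩
  · rintro ⟨v, h⟩; exact ⟨⟨_, ⟨v, rfl⟩⟩, h⟩

/-- The Bass-Serre tree has no cycles. -/
theorem tree_lemma (f : GG →₀ ℤ) (h : ∀ i, Finsupp.mapDomain (πV i) f = 0) :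
    Finsupp.mapDomain πE f = 0 := by
  classical
  obtain ⟨ℓ, hℓ1, hℓ2⟩ := exists_level
  by_contra hne
  have hne' : (Finsupp.mapDomain πE f).support.Nonempty := Finsupp.support_nonempty_iff.2 hne
  let L : MulAction.orbitRel.Quotient ein.range GG → ℕ := Quotient.lift ℓ (by
    rintro x y ⟨⟨_, ⟨e, rfl⟩⟩, rfl⟩
    exact hℓ1 e y)
  have hL : ∀ x, L (πE x) = ℓ x := fun x => rfl
  obtain ⟨q, hq, hmax⟩ := Finset.exists_max_image _ L hne'
  obtain ⟨x, rfl⟩ : ∃ x, πE x = q := Quotient.exists_rep q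
  obtain ⟨i, hi⟩ := hℓ2 x
  let p : MulAction.orbitRel.Quotient ein.range GG → MulAction.orbitRel.Quotient (vin i).range GG :=
    Quotient.lift (πV i) (by
      rintro x y ⟨⟨_, ⟨e, rfl⟩⟩, rfl⟩
      rw [πV_eq_iff]
      exact ⟨φ i e, by rw [vin_φ]; rfl⟩)
  have hp : ∀ x, p (πE x) = πV i x := fun x => rfl
  have h0 : Finsupp.mapDomain p (Finsupp.mapDomain πE f) = 0 := by
    rw [← Finsupp.mapDomain_comp]
    exact h i
  have h1 := DFunLike.congr_fun h0 (p (πE x))
  rw [Finsupp.mapDomain, Finsupp.sum_apply, Finsupp.sum, Finset.sum_eq_single (πE x)] at h1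
  · rw [Finsupp.single_eq_same] at h1
    exact (Finsupp.mem_support_iff.1 hq) h1
  · intro q' hq' hne
    obtain ⟨y, rfl⟩ : ∃ y, πE y = q' := Quotient.exists_rep q'
    rw [Finsupp.single_apply, if_neg]
    intro hxy
    rw [hp, hp, πV_eq_iff] at hxy
    obtain ⟨v, rfl⟩ := hxy
    have h3 : v ∉ (φ i).range := by
      rintro ⟨e, rfl⟩
      apply hne
      rw [πE_eq_iff]
      exact ⟨e, by rw [vin_φ]⟩
    have h4 := hi v h3
    have h5 := hmax _ hq'
    rw [hL, hL] at h5
    exact absurd h4 (not_lt.2 h5)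
  · intro h6; exact absurd hq h6

/-- elements with zero sum on the orbits of the fibre group -/
noncomputable def IM (i : Bool) : AddSubgroup M := (Finsupp.mapDomain.addMonoidHom (πF i)).ker

theorem mem_IM {i : Bool} {m : M} : m ∈ IM i ↔ Finsupp.mapDomain (πF i) m = 0 := Iff.rfl

theorem sub_mem_IM (i : Bool) (x : F) (m : M) : ρ (fin i x) m - m ∈ IM i := by
  have h : Finsupp.mapDomain (πF i) (ρ (fin i x) m) = Finsupp.mapDomain (πF i) m := by
    apply mapDomain_permRep
    intro y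
    rw [πF_eq_iff]
    exact ⟨x, rfl⟩
  have h2 : Finsupp.mapDomain.addMonoidHom (πF i) (ρ (fin i x) m - m) = 0 := by
    rw [map_sub]
    exact sub_eq_zero.2 h
  exact h2

/-- `IM i` is generated by the differences for a generating set of the fibre group -/
theorem IM_gen (i : Bool) (S : Set F) (hS : Subgroup.closure S = ⊤) (I : AddSubgroup M)
    (hI : ∀ s ∈ S, ∀ m : M, ρ (fin i s) m - m ∈ I) {m : M} (hm : m ∈ IM i) : m ∈ I := by
  refine mem_of_mapDomain_eq_zero (fin i '' S) I ?_ (πF i) ?_ m hm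
  · rintro _ ⟨s, hs, rfl⟩ x
    have := hI s hs (single x 1)
    rwa [permRep_single] at this
  · intro x y hxy
    rw [eq_comm, πF_eq_iff] at hxy
    obtain ⟨e, he⟩ := hxy
    refine ⟨fin i e, ?_, he⟩
    rw [← MonoidHom.map_closure, hS]
    exact ⟨e, trivial, rfl⟩

theorem ρ_mul (g h : GG) (m : M) : ρ g (ρ h m) = ρ (g * h) m := by
  rw [map_mul]; rfl

theorem IM_smul (i : Bool) (x : F) {m : M} (hm : m ∈ IM i) : ρ (fin i x) m ∈ IM i := by
  have := (IM i).add_mem (sub_mem_IM i x m) hm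
  rwa [sub_add_cancel] at this

theorem IM_smul_cc (i : Bool) {m : M} (hm : m ∈ IM i) : ρ (cc (!i)) m ∈ IM i := by
  have : m ∈ (IM i).comap (ρ (cc (!i))).toAddMonoidHom := by
    refine IM_gen i ⊤ (by simp) _ ?_ hm
    intro s _ m
    change ρ (cc (!i)) (ρ (fin i s) m - m) ∈ IM i
    rw [map_sub, ρ_mul]
    have : cc (!i) * fin i s = fin i (hA s) * cc (!i) := by
      rw [← cc_conj]; group
    rw [this, ← ρ_mul]
    exact sub_mem_IM i _ _
  exact this

theorem ein_free (v : E) (x : GG) (h : ein v • x = x) : v = 1 := by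
  rw [smul_eq_mul, mul_eq_right] at h
  exact (injective_iff_map_eq_one _).1 ein_injective v h

/-- the derivative along `c` or `t` -/
theorem edge_fox (j : E →* GG) (hj : Function.Injective j) :
    ∃ D : (GG →₀ ℤ) →ₗ[ℤ] (GG →₀ ℤ),
    (∀ m, D (permRep GG GG (j (Multiplicative.ofAdd 1, 1)) m) = D m + m) ∧
    (∀ m, D (permRep GG GG (j (1, Multiplicative.ofAdd 1)) m)
      = permRep GG GG (j (1, Multiplicative.ofAdd 1)) (D m)) := by
  let e : FreeGroup Unit × Multiplicative ℤ ≃* E :=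
    MulEquiv.prodCongr FreeGroup.mulEquivIntOfUnique (MulEquiv.refl _)
  have he1 : e (FreeGroup.of (), 1) = (Multiplicative.ofAdd 1, 1) := by
    have h1 : (FreeGroup.mulEquivIntOfUnique (FreeGroup.of ()) : Multiplicative ℤ)
        = Multiplicative.ofAdd 1 := by
      change Multiplicative.ofAdd (FreeGroup.equivIntOfUnique (FreeGroup.of ())) = _
      congr 1
    exact Prod.ext h1 rfl
  have he2 : ∀ b, e (1, b) = (1, b) := by
    intro b
    exact Prod.ext (map_one FreeGroup.mulEquivIntOfUnique) rfl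
  obtain ⟨D, h1, h2⟩ := exists_fox (G := GG) (X := GG) (j.comp e.toMonoidHom) (fun v x h => by
    rw [smul_eq_mul, mul_eq_right] at h
    have := (injective_iff_map_eq_one _).1 hj _ h
    exact (map_eq_one_iff e e.injective).1 this)
  refine ⟨D (), fun m => ?_, fun m => ?_⟩
  · have := h1 () () m
    simp only [MonoidHom.comp_apply, MulEquiv.coe_toMonoidHom, he1, if_true] at this
    exact this
  · have := h2 () (Multiplicative.ofAdd 1) m
    simp only [MonoidHom.comp_apply, MulEquiv.coe_toMonoidHom, he2] at this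
    exact this

/-- derivative along `c_i`, commuting with `c_{!i}` -/
theorem cc_fox (i : Bool) : ∃ D : M →ₗ[ℤ] M, (∀ m, D (ρ (cc i) m) = D m + m) ∧
    (∀ m, D (ρ (cc (!i)) m) = ρ (cc (!i)) (D m)) := by
  cases i
  · obtain ⟨D, h1, h2⟩ := edge_fox
      (ein.comp (MonoidHom.prod (MonoidHom.snd _ _) (MonoidHom.fst _ _))) (by
        rw [MonoidHom.coe_comp]
        refine ein_injective.comp ?_
        rintro ⟨p, q⟩ ⟨p', q'⟩ h
        simp only [MonoidHom.prod_apply, MonoidHom.coe_snd, MonoidHom.coe_fst,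
          Prod.mk.injEq] at h
        rw [h.1, h.2])
    refine ⟨D, ?_, ?_⟩
    · rw [cc_false]; exact h1
    · rw [Bool.not_false, cc_true]; exact h2
  · obtain ⟨D, h1, h2⟩ := edge_fox ein ein_injective
    refine ⟨D, ?_, ?_⟩
    · rw [cc_true]; exact h1
    · rw [Bool.not_true, cc_false]; exact h2

theorem cc_inj (i : Bool) {m : M} (h : ρ (cc i) m - m = 0) : m = 0 := by
  obtain ⟨D, h1, h2⟩ := cc_fox i
  have := congrArg D h
  rw [map_sub, h1, map_zero] at this
  simpa using this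

/-- Koszul exactness -/
theorem kos (i : Bool) {x y : M} (h : ρ (cc i) x - x = ρ (cc (!i)) y - y) :
    ∃ u, x = ρ (cc (!i)) u - u ∧ y = ρ (cc i) u - u := by
  obtain ⟨D, h1, h2⟩ := cc_fox i
  have hx : x = ρ (cc (!i)) (D y) - D y := by
    have := congrArg D h
    rw [map_sub, h1, map_sub, h2] at this
    rw [← this]; abel
  refine ⟨D y, hx, ?_⟩
  have hc : ρ (cc i) (ρ (cc (!i)) (D y)) = ρ (cc (!i)) (ρ (cc i) (D y)) := by
    rw [ρ_mul, ρ_mul, (cc_comm i (!i)).eq]
  have h3 : ρ (cc (!i)) (y - (ρ (cc i) (D y) - D y)) - (y - (ρ (cc i) (D y) - D y)) = 0 := by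
    have h4 : ρ (cc i) x - x = ρ (cc (!i)) (ρ (cc i) (D y) - D y) - (ρ (cc i) (D y) - D y) := by
      rw [hx]
      simp only [map_sub, hc]
      abel
    rw [map_sub (ρ (cc (!i))) y, sub_sub_sub_comm, ← h, h4, sub_self]
  have h5 := cc_inj (!i) h3
  exact sub_eq_zero.1 h5

end Pool.Agent.H986PD
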