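import Pool.Agent.H986PD.PM

/-! The group ring, its left ideals `L i` and twisted right ideals `J i`. -/

namespace Pool.Agent.H986PD

open Monoid Pool.Agent.Helper158 Finsupp

/-- the group ring -/
abbrev R : Type := MonoidAlgebra ℤ GG

/-- group elements -/
noncomputable def gr : GG →* R := MonoidAlgebra.of ℤ GG

/-- coefficients -/
noncomputable def eM : R ≃+ M := MonoidAlgebra.coeffAddEquiv

theorem eM_mul (g : GG) (x : R) : eM (gr g * x) = ρ g (eM x) := by
  change (MonoidAlgebra.of ℤ GG g * x).coeff = permRep GG GG g x.coeff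
  induction x using MonoidAlgebra.induction_on with
  | of h => simp [MonoidAlgebra.single_mul_single]
  | add a b ha hb => rw [mul_add, MonoidAlgebra.coeff_add, ha, hb, MonoidAlgebra.coeff_add, map_add]
  | smul n a ha => rw [mul_smul_comm, MonoidAlgebra.coeff_smul, ha, MonoidAlgebra.coeff_smul, map_smul]

/-- coefficients after the antipode -/
noncomputable def eI : R ≃+ M :=
  MonoidAlgebra.coeffAddEquiv.trans (Finsupp.domCongr (Equiv.inv GG))

theorem eI_mul (g : GG) (x : R) : eI (x * gr g) = ρ g⁻¹ (eI x) := by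
  change eI (x * MonoidAlgebra.of ℤ GG g) = permRep GG GG g⁻¹ (eI x)
  induction x using MonoidAlgebra.induction_on with
  | of h => simp [MonoidAlgebra.single_mul_single, eI]
  | add a b ha hb => rw [add_mul, map_add, ha, hb, map_add, map_add]
  | smul n a ha => rw [smul_mul_assoc, map_zsmul, ha, map_zsmul, map_zsmul]

/-- the augmentation -/
noncomputable def aug : R →ₐ[ℤ] ℤ := MonoidAlgebra.lift ℤ ℤ GG (1 : GG →* ℤ)

theorem aug_gr (g : GG) : aug (gr g) = 1 := by
  change aug (MonoidAlgebra.of ℤ GG g) = 1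
  rw [aug, MonoidAlgebra.lift_of]
  rfl

theorem aug_eq (x : R) : aug x = (eM x).sum (fun _ n => n) := by
  change aug x = x.coeff.sum (fun _ n => n)
  simp [aug, MonoidAlgebra.lift_apply]

theorem aug_eq' (x : R) : aug x = (eI x).sum (fun _ n => n) := by
  rw [aug_eq]
  simp [eI, eM, Finsupp.sum_equivMapDomain]

/-- the orientation character on the fibre -/
def wF : F →* ℤˣ := FreeGroup.lift ![1, 1, -1]

@[simp] theorem wF_xa : wF xa = 1 := by simp [wF, xa]
@[simp] theorem wF_xb : wF xb = 1 := by simp [wF, xb]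
@[simp] theorem wF_xd : wF xd = -1 := by simp [wF, xd]

theorem wF_cw : wF cw = 1 := by
  simp [cw]

theorem wF_gT (x : F) : wF (gT x) = wF x := by
  rw [gT_apply, map_mul, map_mul, map_inv, inv_mul_cancel_comm]
  have : wF.comp gHom = wF := by
    apply F_ext <;> simp
  exact DFunLike.congr_fun this x

theorem wF_hA (x : F) : wF (hA x) = wF x := by
  rw [hA_apply, map_mul, map_mul, map_inv, mul_inv_cancel_comm, wF_gT, wF_gT, wF_gT, wF_gT]

theorem exists_w : ∃ w : GG →* ℤˣ, ∀ i x, w (fin i x) = wF x :=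
  exists_lift (fun _ => wF) (by
    intro i x
    rw [mul_inv_cancel_comm, wF_hA])

/-- the orientation character -/
noncomputable def wG : GG →* ℤˣ := exists_w.choose

theorem wG_fin (i : Bool) (x : F) : wG (fin i x) = wF x := exists_w.choose_spec i x

theorem wG_cc (i : Bool) : wG (cc i) = 1 := by
  rw [cc, wG_fin, wF_cw]

/-- the twist on group elements -/
noncomputable def tw0 : GG →* R where
  toFun g := ((wG g : ℤˣ) : ℤ) • gr g
  map_one' := by simp
  map_mul' g h := by
    rw [map_mul, map_mul, Units.val_mul, smul_mul_smul_comm]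

/-- the twist `g ↦ w(g) g` -/
noncomputable def tw : R →ₐ[ℤ] R := MonoidAlgebra.lift ℤ R GG tw0

theorem tw_gr (g : GG) : tw (gr g) = ((wG g : ℤˣ) : ℤ) • gr g := by
  change tw (MonoidAlgebra.of ℤ GG g) = _
  rw [tw, MonoidAlgebra.lift_of]
  rfl

theorem tw_tw (x : R) : tw (tw x) = x := by
  induction x using MonoidAlgebra.induction_on with
  | of g =>
    change tw (tw (gr g)) = gr g
    rw [tw_gr, map_zsmul, tw_gr, smul_smul, ← Units.val_mul, Int.units_mul_self]
    simp
  | add a b ha hb => rw [map_add, map_add, ha, hb]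
  | smul n a ha => rw [map_zsmul, map_zsmul, ha]

/-- twisted coefficients -/
noncomputable def eW : R ≃+ M where
  toFun x := eM (tw x)
  invFun m := tw (eM.symm m)
  left_inv x := by simp [tw_tw]
  right_inv m := by simp [tw_tw]
  map_add' x y := by simp

theorem eW_mul (g : GG) (x : R) : eW (gr g * x) = ((wG g : ℤˣ) : ℤ) • ρ g (eW x) := by
  change eM (tw (gr g * x)) = _ • ρ g (eM (tw x))
  rw [map_mul, tw_gr, smul_mul_assoc, map_zsmul, eM_mul]

theorem eW_mul_one {g : GG} (hg : wG g = 1) (x : R) : eW (gr g * x) = ρ g (eW x) := by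
  rw [eW_mul, hg]; simp

theorem eW_mul_neg {g : GG} (hg : wG g = -1) (x : R) : eW (gr g * x) = -ρ g (eW x) := by
  rw [eW_mul, hg]; simp

/-- the twisted augmentation -/
noncomputable def augW : R →ₐ[ℤ] ℤ := aug.comp tw

/-- the twisted augmentation right ideals of the fibre groups -/
noncomputable def J (i : Bool) : AddSubgroup R := (IM i).comap (eW : R →+ M)

theorem mem_J {i : Bool} {x : R} : x ∈ J i ↔ eW x ∈ IM i := Iff.rfl

theorem mul_mem_J (i : Bool) (f : F) {x : R} (hx : x ∈ J i) : gr (fin i f) * x ∈ J i := by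
  rw [mem_J, eW_mul]
  exact (IM i).zsmul_mem (IM_smul i f hx) _

theorem cc_mul_mem_J (i : Bool) {x : R} (hx : x ∈ J i) : gr (cc (!i)) * x ∈ J i := by
  rw [mem_J, eW_mul]
  exact (IM i).zsmul_mem (IM_smul_cc i hx) _

theorem sub_mem_J (i : Bool) {f : F} (hf : wF f = 1) (x : R) : (gr (fin i f) - 1) * x ∈ J i := by
  rw [mem_J, sub_mul, one_mul, map_sub, eW_mul_one (by rw [wG_fin, hf])]
  exact sub_mem_IM i f _

theorem add_mem_J (i : Bool) {f : F} (hf : wF f = -1) (x : R) :
    (gr (fin i f) + 1) * x ∈ J i := by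
  rw [mem_J, add_mul, one_mul, map_add, eW_mul_neg (by rw [wG_fin, hf]), neg_add_eq_sub]
  rw [← neg_mem_iff, neg_sub]
  exact sub_mem_IM i f _

theorem cc_sub_mem_J (i : Bool) (x : R) : (gr (cc i) - 1) * x ∈ J i :=
  sub_mem_J i wF_cw x

/-- the vectors `x_k - 1` -/
noncomputable def lv (i : Bool) (k : Fin 3) : R := gr (fin i (FreeGroup.of k)) - 1

/-- coordinates of `L i` -/
noncomputable def Lmap (i : Bool) : (Fin 3 → R) →ₗ[R] R := Fintype.linearCombination R (lv i)

/-- the left ideals generated by the augmentation ideals of the fibre groups -/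
noncomputable def L (i : Bool) : Submodule R R := LinearMap.range (Lmap i)

theorem Lmap_apply (i : Bool) (r : Fin 3 → R) : Lmap i r = ∑ k, r k * lv i k := by
  simp [Lmap, Fintype.linearCombination_apply]

theorem mul_lv (i : Bool) (r : R) (f : F) :
    eI (r * (gr (fin i f) - 1)) = ρ (fin i f⁻¹) (eI r) - eI r := by
  rw [mul_sub, mul_one, map_sub, eI_mul, map_inv (fin i)]

theorem closure_inv_gens :
    Subgroup.closure (Set.range fun k : Fin 3 => (FreeGroup.of k : F)⁻¹) = ⊤ := by
  rw [← Set.inv_range, Subgroup.closure_inv, FreeGroup.closure_range_of]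

theorem mem_L {i : Bool} {x : R} : x ∈ L i ↔ eI x ∈ IM i := by
  constructor
  · rintro ⟨r, rfl⟩
    rw [Lmap_apply, map_sum]
    refine sum_mem fun k _ => ?_
    rw [lv, mul_lv]
    exact sub_mem_IM _ _ _
  · intro h
    have h2 : eI x ∈ (L i).toAddSubgroup.comap (eI.symm : M →+ R) := by
      refine IM_gen i _ closure_inv_gens _ ?_ h
      rintro _ ⟨k, rfl⟩ m
      have h3 : ρ (fin i (FreeGroup.of k)⁻¹) m - m
          = eI (eI.symm m * (gr (fin i (FreeGroup.of k)) - 1)) := by
        rw [mul_lv]; simp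
      change eI.symm (ρ (fin i (FreeGroup.of k)⁻¹) m - m) ∈ L i
      rw [h3, AddEquiv.symm_apply_apply]
      refine ⟨Pi.single k (eI.symm m), ?_⟩
      rw [Lmap_apply, Finset.sum_eq_single k]
      · rw [Pi.single_eq_same, lv]
      · intro b _ hb
        rw [Pi.single_eq_of_ne hb, zero_mul]
      · intro h; exact absurd (Finset.mem_univ k) h
    have h3 : eI.symm (eI x) ∈ L i := h2
    rwa [AddEquiv.symm_apply_apply] at h3

theorem mul_sub_mem_L (i : Bool) (r : R) (f : F) : r * (gr (fin i f) - 1) ∈ L i := by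
  rw [mem_L, mul_lv]
  exact sub_mem_IM _ _ _

theorem mul_cc_mem_L (i : Bool) {x : R} (hx : x ∈ L i) : x * gr (cc (!i)) ∈ L i := by
  rw [mem_L, eI_mul]
  have h : ∀ m, m ∈ IM i → ρ (cc (!i))⁻¹ m ∈ IM i := by
    intro m hm
    have : m ∈ (IM i).comap (ρ (cc (!i))⁻¹).toAddMonoidHom := by
      refine IM_gen i ⊤ (by simp) _ ?_ hm
      intro s _ m
      change ρ (cc (!i))⁻¹ (ρ (fin i s) m - m) ∈ IM i
      rw [map_sub, ρ_mul]
      have : (cc (!i))⁻¹ * fin i s = fin i (hA⁻¹ s) * (cc (!i))⁻¹ := by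
        have h5 := cc_conj i (hA⁻¹ s)
        rw [MulAut.apply_inv_self] at h5
        rw [← h5]; group
      rw [this, ← ρ_mul]
      exact sub_mem_IM i _ _
    exact this
  exact h _ (mem_L.1 hx)

end Pool.Agent.H986PD
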